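import Pool.Agent.P8H30.SD.DPart
import Pool.Agent.N192.GP.Ribet

set_option autoImplicit false
set_option linter.unusedSectionVars false
set_option linter.unusedVariables false

/-!
# Sums of parts
-/

open Module Function TensorProduct Matrix

noncomputable section

namespace Pool.Agent.P8H30.SD

open Pool.Agent.Y102 Pool.Agent.W516.DR Pool.Agent.H204R3.GP Pool.Agent.W516.KC
  Pool.Agent.H204R3.SP Pool.Agent.TH119.MX Pool.Agent.R917 Pool.Agent.N208.AM Pool.Agent.N113.BT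
  Pool.Agent.N192.GP

variable {g : ℕ} {A : AbVar g}

/-- the endomorphisms of the complex homology -/
abbrev EH (A : AbVar g) : Type := Module.End ℂ (ℂ ⊗[ℚ] A.H1)

/-- The image of the derived algebra on `e` is reached by elements killed by `f`. -/
def Sep2 (A : AbVar g) (e f : EH A) : Prop :=
  ∀ 𝔮 : Submodule ℚ (Module.End ℚ A.H1), A.Full 𝔮 → ∀ X ∈ Pool.Agent.Y102.der A.NA,
    ∃ y ∈ cx (Pool.Agent.Y102.der 𝔮), e * X.baseChange ℂ = e * y ∧ f * y = 0

theorem Sep2.ext {e f : EH A} (hs : Sep2 A e f) {𝔮 : Submodule ℚ (Module.End ℚ A.H1)}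
    (h : A.Full 𝔮) {x : EH A} (hx : x ∈ cx (Pool.Agent.Y102.der A.NA)) :
    ∃ y ∈ cx (Pool.Agent.Y102.der 𝔮), e * x = e * y ∧ f * y = 0 := by
  induction hx using Submodule.span_induction with
  | mem x hx =>
    obtain ⟨X, hX, rfl⟩ := hx
    exact hs 𝔮 h X hX
  | zero => exact ⟨0, Submodule.zero_mem _, rfl, mul_zero f⟩
  | add a b _ _ ha hb =>
    obtain ⟨x, hx, h1, h2⟩ := ha
    obtain ⟨y, hy, h3, h4⟩ := hb
    exact ⟨x + y, Submodule.add_mem _ hx hy, by rw [mul_add, mul_add, h1, h3], by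
      rw [mul_add, h2, h4, add_zero]⟩
  | smul c a _ ha =>
    obtain ⟨x, hx, h1, h2⟩ := ha
    exact ⟨c • x, Submodule.smul_mem _ c hx, by rw [mul_smul_comm, mul_smul_comm, h1], by
      rw [mul_smul_comm, h2, smul_zero]⟩

theorem derNA_le : Pool.Agent.Y102.der A.NA ≤ A.NA := der_NA_le

theorem cxd_le {𝔮 : Submodule ℚ (Module.End ℚ A.H1)} (h : A.Full 𝔮) :
    cx (Pool.Agent.Y102.der 𝔮) ≤ cx A.NA := cx_mono (h.der_le.trans h.le)

theorem der_mono {𝔮 𝔮' : Submodule ℚ (Module.End ℚ A.H1)} (h : 𝔮 ≤ 𝔮') :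
    Pool.Agent.Y102.der 𝔮 ≤ Pool.Agent.Y102.der 𝔮' := by
  unfold Pool.Agent.Y102.der
  exact Submodule.span_mono fun _ ⟨X, hX, Y, hY, e⟩ => ⟨X, h hX, Y, h hY, e⟩

theorem cxd_le' {𝔮 : Submodule ℚ (Module.End ℚ A.H1)} (h : A.Full 𝔮) :
    cx (Pool.Agent.Y102.der 𝔮) ≤ cx (Pool.Agent.Y102.der A.NA) := cx_mono (der_mono h.le)

theorem hm_left {R : Type} [Ring R] [Algebra ℂ R] {e : R} {𝔩 : Submodule ℂ R}
    (hc : ∀ x ∈ 𝔩, e * x = x * e) (he : e * e = e) : Hm (LinearMap.mulLeft ℂ e) 𝔩 := by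
  intro x hx y hy
  rw [LinearMap.mulLeft_apply, LinearMap.mulLeft_apply, LinearMap.mulLeft_apply]
  have e1 : e * x * (e * y) = e * (x * y) := by
    calc e * x * (e * y) = e * (x * e) * y := by simp only [mul_assoc]
      _ = e * e * (x * y) := by rw [← hc x hx]; simp only [mul_assoc]
      _ = e * (x * y) := by rw [he]
  have e2 : e * y * (e * x) = e * (y * x) := by
    calc e * y * (e * x) = e * (y * e) * x := by simp only [mul_assoc]
      _ = e * e * (y * x) := by rw [← hc y hy]; simp only [mul_assoc]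
      _ = e * (y * x) := by rw [he]
  rw [e1, e2, mul_sub]

theorem cxd_br {𝔮 : Submodule ℚ (Module.End ℚ A.H1)} (h : A.Full 𝔮) :
    Br (cx (Pool.Agent.Y102.der 𝔮)) := by
  refine cx_br (T := cx (Pool.Agent.Y102.der 𝔮)) fun X hX Y hY => ?_
  rw [← bc_br]
  exact bc_mem (Submodule.subset_span ⟨X, h.der_le hX, Y, h.der_le hY, rfl⟩)

/-- The image is perfect. -/
theorem perf_left {e : EH A} (hc : ∀ x ∈ cx A.NA, e * x = x * e) (he : e * e = e)
    {𝔮 : Submodule ℚ (Module.End ℚ A.H1)} (h : A.Full 𝔮) :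
    (cx (Pool.Agent.Y102.der 𝔮)).map (LinearMap.mulLeft ℂ e) ≤
      brk ((cx (Pool.Agent.Y102.der 𝔮)).map (LinearMap.mulLeft ℂ e))
        ((cx (Pool.Agent.Y102.der 𝔮)).map (LinearMap.mulLeft ℂ e)) := by
  have hm : Hm (LinearMap.mulLeft ℂ e) (cx (Pool.Agent.Y102.der 𝔮)) :=
    hm_left (fun x hx => hc x (cxd_le h hx)) he
  refine (Submodule.map_mono h.cx_perfect).trans ?_
  rw [Submodule.map_span_le]
  rintro _ ⟨a, ha, b, hb, rfl⟩
  rw [hm a ha b hb]
  exact Submodule.subset_span ⟨_, ⟨a, ha, rfl⟩, _, ⟨b, hb, rfl⟩, rfl⟩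

/-- The annihilator of `f` in the complex derived algebra. -/
def annL (f : EH A) (𝔮 : Submodule ℚ (Module.End ℚ A.H1)) : Submodule ℂ (EH A) :=
  cx (Pool.Agent.Y102.der 𝔮) ⊓ LinearMap.ker (LinearMap.mulLeft ℂ f)

theorem mem_annL {f x : EH A} {𝔮 : Submodule ℚ (Module.End ℚ A.H1)} :
    x ∈ annL f 𝔮 ↔ x ∈ cx (Pool.Agent.Y102.der 𝔮) ∧ f * x = 0 := Iff.rfl

theorem annL_idl {f : EH A} (hc : ∀ x ∈ cx A.NA, f * x = x * f)
    {𝔮 : Submodule ℚ (Module.End ℚ A.H1)} (h : A.Full 𝔮) :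
    Idl (annL f 𝔮) (cx (Pool.Agent.Y102.der 𝔮)) := by
  refine ⟨inf_le_left, fun x hx y hy => mem_annL.2 ⟨cxd_br h x hx y hy.1, ?_⟩⟩
  have h1 : f * y = 0 := hy.2
  rw [mul_sub, ← mul_assoc, ← mul_assoc, h1, zero_mul, sub_zero, hc x (cxd_le h hx), mul_assoc, h1,
    mul_zero]

/-- A projector `e` commuting with the Lie algebra such that all full subalgebras have derived algebras
with the same image. -/
structure EPart (A : AbVar g) (e : EH A) : Prop where
  comm : ∀ x ∈ cx A.NA, e * x = x * e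
  idem : e * e = e
  der : ∀ 𝔮 : Submodule ℚ (Module.End ℚ A.H1), A.Full 𝔮 → ∀ X ∈ Pool.Agent.Y102.der A.NA,
    ∃ y ∈ cx (Pool.Agent.Y102.der 𝔮), e * X.baseChange ℂ = e * y

/-- The elements killed by all projectors of a family. -/
def annF {I : Type} (e : I → EH A) : Submodule ℂ (EH A) where
  carrier := {y | ∀ i, e i * y = 0}
  zero_mem' := fun i => mul_zero _
  add_mem' := fun {a b} ha hb i => by rw [mul_add, ha i, hb i, add_zero]
  smul_mem' := fun c a ha i => by rw [mul_smul_comm, ha i, smul_zero]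

/-- **Families of parts which are separated pairwise.** -/
theorem dpart_fam {I : Type} [Fintype I] [DecidableEq I] (e : I → EH A)
    (hd : ∀ i, EPart A (e i)) (hs : ∀ i j, i ≠ j → Sep2 A (e i) (e j)) : DPart A (annF e) where
  stab x hx y hy i := by
    rw [mul_sub, ← mul_assoc, hy i, zero_mul, ← mul_assoc, (hd i).comm x hx, mul_assoc, hy i,
      mul_zero, sub_zero]
  der 𝔮 h X hX := by
    have key : ∀ i, ∃ y ∈ cx (Pool.Agent.Y102.der 𝔮), e i * X.baseChange ℂ = e i * y ∧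
        ∀ j, j ≠ i → e j * y = 0 := by
      intro i
      have hm : Hm (LinearMap.mulLeft ℂ (e i)) (cx (Pool.Agent.Y102.der 𝔮)) :=
        hm_left (fun x hx => (hd i).comm x (cxd_le h hx)) (hd i).idem
      have h1 := ribet hm (perf_left (hd i).comm (hd i).idem h) le_rfl
        (fun j => annL_idl (hd j).comm h) (Finset.univ.erase i) (fun j hj => ?_)
      · obtain ⟨y, hy, hXy⟩ := (hd i).der 𝔮 h X hX
        obtain ⟨z, hz, hzy⟩ := h1 ⟨y, hy, rfl⟩
        refine ⟨z, hz.1, ?_, fun j hj => ?_⟩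
        · rw [hXy]
          exact hzy.symm
        · have h2 := (Submodule.mem_iInf _).1 ((Submodule.mem_iInf _).1 hz.2 j)
            (Finset.mem_erase.2 ⟨hj, Finset.mem_univ j⟩)
          exact h2.2
      · rintro _ ⟨y, hy, rfl⟩
        obtain ⟨z, hz, h2, h3⟩ := (hs i j (Ne.symm (Finset.ne_of_mem_erase hj))).ext h
          (cxd_le' h hy)
        exact ⟨z, ⟨hz, h3⟩, h2.symm⟩
    choose y hy h1 h2 using key
    refine ⟨∑ i, y i, Submodule.sum_mem _ fun i _ => hy i, fun i => ?_⟩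
    rw [mul_sub, h1 i, Finset.mul_sum, Finset.sum_eq_single i, sub_self]
    · intro j _ hj
      exact h2 j i hj.symm
    · intro h3
      exact absurd (Finset.mem_univ i) h3

end Pool.Agent.P8H30.SD
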