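import Pool.Agent.P8H30.SD.Pairs

set_option autoImplicit false
set_option linter.unusedSectionVars false
set_option linter.unusedVariables false

/-!
# The domain
-/

open Module Function TensorProduct Matrix

noncomputable section

namespace Pool.Agent.P8H30.SD

open Pool.Agent.Y102 Pool.Agent.W516.DR Pool.Agent.H204R3.GP Pool.Agent.W516.KC
  Pool.Agent.H204R3.SP Pool.Agent.TH119.MX Pool.Agent.R917 Pool.Agent.N208.AM Pool.Agent.N113.BT

variable {g : ℕ} {A : AbVar g} {s n : ℕ} {r : Fin s → ℕ} {B : Fin n → Ten A r}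
  {N : Matrix (Fin n) (Fin n) ℝ}

/-- The condition on the domain. -/
theorem alpha_fam {I : Type} {d : I → ℕ} {P : ∀ i, Matrix (Fin (2 * g)) (Fin (d i)) ℂ}
    {Q : ∀ i, Matrix (Fin (d i)) (Fin (2 * g)) ℂ} (hQP : ∀ i, Q i * P i = 1)
    {T : Submodule ℚ (Module.End ℚ A.H1)}
    (hα : ∀ p ∈ Submodule.span ℂ {p : Matrix (Fin (2 * g)) (Fin (2 * g)) ℂ ×
      Matrix (Fin n) (Fin n) ℂ | ∃ X ∈ T, ∃ M, Rel B X M ∧ p = (toC X, cq M)},
      (∀ i, Q i * p.1 = 0) → p.2 * cxm N = cxm N * p.2) :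
    ∀ p ∈ pC B T, p.1 ∈ annF (fun i => pr (P i) (Q i) A) → p.2 * cxm N = cxm N * p.2 := by
  intro p hp h0
  have key : ∀ p ∈ pC B T, ∃ x, matE (2 * g) x = p.1 ∧ (x, p.2) ∈
      Submodule.span ℂ {p : Matrix (Fin (2 * g)) (Fin (2 * g)) ℂ × Matrix (Fin n) (Fin n) ℂ |
        ∃ X ∈ T, ∃ M, Rel B X M ∧ p = (toC X, cq M)} := by
    intro p hp
    induction hp using Submodule.span_induction with
    | mem p hp =>
      obtain ⟨X, hX, M, hM, rfl⟩ := hp
      exact ⟨toC X, matE_toC X, Submodule.subset_span ⟨X, hX, M, hM, rfl⟩⟩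
    | zero => exact ⟨0, map_zero _, Submodule.zero_mem _⟩
    | add p q _ _ hp hq =>
      obtain ⟨x, hx, hx'⟩ := hp
      obtain ⟨y, hy, hy'⟩ := hq
      exact ⟨x + y, by rw [map_add, hx, hy]; rfl, Submodule.add_mem _ hx' hy'⟩
    | smul c p _ hp =>
      obtain ⟨x, hx, hx'⟩ := hp
      exact ⟨c • x, by rw [map_smul, hx]; rfl, Submodule.smul_mem _ c hx'⟩
  obtain ⟨x, hx, hx'⟩ := key p hp
  refine hα _ hx' fun i => ?_
  have h1 : pr (P i) (Q i) A * p.1 = 0 := h0 i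
  unfold pr at h1
  rw [← hx, ← map_mul] at h1
  have h2 : P i * Q i * x = 0 := (matE (2 * g)).injective (h1.trans (map_zero _).symm)
  have h3 : Q i * (P i * Q i * x) = Q i * x := by
    rw [← Matrix.mul_assoc, ← Matrix.mul_assoc, hQP, Matrix.one_mul]
  change Q i * x = 0
  rw [← h3, h2, Matrix.mul_zero]

end Pool.Agent.P8H30.SD
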