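import Pool.Agent.P8H30.SD.Parts

set_option autoImplicit false
set_option linter.unusedSectionVars false
set_option linter.unusedVariables false

/-!
# Families of spin parts
-/

open Module Function TensorProduct Matrix

noncomputable section

namespace Pool.Agent.P8H30.SD

open Pool.Agent.Y102 Pool.Agent.W516.DR Pool.Agent.H204R3.GP Pool.Agent.W516.KC
  Pool.Agent.H204R3.SP Pool.Agent.TH119.MX Pool.Agent.R917 Pool.Agent.N208.AM Pool.Agent.N113.BT
  Pool.Agent.N192.GP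

variable {g : ℕ}

/-- A spin part with one colour. -/
structure SpP (A : AbVar g) {r d : ℕ} (E : Fin r → Matrix (Fin d) (Fin d) ℂ)
    (P : Matrix (Fin (2 * g)) (Fin d) ℂ) (Q : Matrix (Fin d) (Fin (2 * g)) ℂ) : Prop where
  square : ∀ i, E i * E i = 1
  anti : ∀ i j, i ≠ j → E i * E j = -(E j * E i)
  rank : r = 3 ∨ 6 ≤ r
  proj : Q * P = 1
  stable : ∀ X ∈ A.NA, P * Q * toC X = toC X * (P * Q)
  acts : ∀ X ∈ A.NA, ∃ t : ℂ, Q * toC X * P + t • 1 ∈
    Submodule.span ℂ {Y | ∃ i j, i ≠ j ∧ Y = E i * E j}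
  gen : ∀ i j, i ≠ j → ∃ Y ∈ Algebra.adjoin ℂ (Submodule.span ℂ
        {Y | ∃ X ∈ A.NA, Y = toC X} : Set (Matrix (Fin (2 * g)) (Fin (2 * g)) ℂ)),
      E i * E j = Q * Y * P

section rig

variable {A : AbVar g} {e : EH A} {S : Submodule ℂ (EH A)}

theorem brk_eq (hid : e * e = e) {x y : EH A} (hx : e * x = x * e) (hy : e * y = y * e) (c d : ℂ) :
    (e * x + c • e) * (e * y + d • e) - (e * y + d • e) * (e * x + c • e) =
      e * (x * y - y * x) := by
  have e2 : e * x * e = e * x := by rw [mul_assoc, ← hx, ← mul_assoc, hid]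
  have e3 : e * y * e = e * y := by rw [mul_assoc, ← hy, ← mul_assoc, hid]
  have e4 : e * (e * y) = e * y := by rw [← mul_assoc, hid]
  have e5 : e * (e * x) = e * x := by rw [← mul_assoc, hid]
  have e6 : (e * x) * (e * y) = e * (x * y) := by
    calc (e * x) * (e * y) = e * (x * e) * y := by simp only [mul_assoc]
      _ = e * e * (x * y) := by rw [← hx]; simp only [mul_assoc]
      _ = e * (x * y) := by rw [hid]
  have e7 : (e * y) * (e * x) = e * (y * x) := by
    calc (e * y) * (e * x) = e * (y * e) * x := by simp only [mul_assoc]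
      _ = e * e * (y * x) := by rw [← hy]; simp only [mul_assoc]
      _ = e * (y * x) := by rw [hid]
  rw [add_mul, mul_add, mul_add, add_mul, mul_add, mul_add, e6, e7]
  simp only [smul_mul_assoc, mul_smul_comm, e2, e3, e4, e5, hid, mul_sub]
  module

/-- The image of the derived algebra is the whole Lie algebra. -/
theorem im_eq (hr : RigPart A e S) (hp : Perf S) : imE e = S := by
  refine le_antisymm ?_ ?_
  · unfold imE
    rintro _ ⟨x, hx, rfl⟩
    rw [LinearMap.mulLeft_apply]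
    induction hx using Submodule.span_induction with
    | mem x hx =>
      obtain ⟨X, hX, rfl⟩ := hx
      induction hX using Submodule.span_induction with
      | mem X hX =>
        obtain ⟨X, hX, Y, hY, rfl⟩ := hX
        obtain ⟨c, hc⟩ := hr.le _ (bc_mem hX)
        obtain ⟨d, hd⟩ := hr.le _ (bc_mem hY)
        have h1 := hr.sbr _ hc _ hd
        rw [brk_eq hr.idem (hr.comm _ (bc_mem hX)) (hr.comm _ (bc_mem hY)), ← bc_br] at h1
        exact h1
      | zero => rw [LinearMap.baseChange_zero, mul_zero]; exact S.zero_mem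
      | add a b _ _ ha hb => rw [LinearMap.baseChange_add, mul_add]; exact S.add_mem ha hb
      | smul c a _ ha =>
        have h1 : (c • a).baseChange ℂ = (c : ℂ) • a.baseChange ℂ := by
          rw [LinearMap.baseChange_smul]
          exact (Rat.cast_smul_eq_qsmul ℂ c _).symm
        rw [h1, mul_smul_comm]
        exact S.smul_mem _ ha
    | zero => rw [mul_zero]; exact S.zero_mem
    | add a b _ _ ha hb => rw [mul_add]; exact S.add_mem ha hb
    | smul c a _ ha => rw [mul_smul_comm]; exact S.smul_mem _ ha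
  · refine hp.trans ?_
    unfold brk
    rw [Submodule.span_le]
    rintro _ ⟨z, hz, z', hz', rfl⟩
    obtain ⟨x, hx, c, rfl⟩ := hr.surj full_NA z hz
    obtain ⟨y, hy, d, rfl⟩ := hr.surj full_NA z' hz'
    rw [brk_eq hr.idem (hr.comm _ hx) (hr.comm _ hy)]
    refine ⟨x * y - y * x, ?_, rfl⟩
    refine cx_br (T := cx (Pool.Agent.Y102.der A.NA)) (fun X hX Y hY => ?_) x hx y hy
    rw [← bc_br]
    exact bc_mem (Submodule.subset_span ⟨X, hX, Y, hY, rfl⟩)

end rig

variable {A : AbVar g} {r d : ℕ} {E : Fin r → Matrix (Fin d) (Fin d) ℂ}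
    {P : Matrix (Fin (2 * g)) (Fin d) ℂ} {Q : Matrix (Fin d) (Fin (2 * g)) ℂ}

/-- The projector. -/
def pr (P : Matrix (Fin (2 * g)) (Fin d) ℂ) (Q : Matrix (Fin d) (Fin (2 * g)) ℂ)
    (A : AbVar g) : EH A := matE (2 * g) (P * Q)

/-- The action on the part. -/
def co (P : Matrix (Fin (2 * g)) (Fin d) ℂ) (Q : Matrix (Fin d) (Fin (2 * g)) ℂ)
    (A : AbVar g) : EH A →ₗ[ℂ] Matrix (Fin d) (Fin d) ℂ where
  toFun y := Q * (matE (2 * g)).symm y * P
  map_add' x y := by rw [map_add, Matrix.mul_add, Matrix.add_mul]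
  map_smul' c x := by rw [map_smul, Matrix.mul_smul, Matrix.smul_mul, RingHom.id_apply]

theorem co_apply (y : EH A) : co P Q A y = Q * (matE (2 * g)).symm y * P := rfl

theorem co_bc (X : Module.End ℚ A.H1) : co P Q A (X.baseChange ℂ) = Q * toC X * P := by
  rw [co_apply]
  congr 2
  rw [AlgEquiv.symm_apply_eq]
  exact (matE_toC X).symm

theorem pr_comm_symm {y : EH A} (hy : pr P Q A * y = y * pr P Q A) :
    P * Q * (matE (2 * g)).symm y = (matE (2 * g)).symm y * (P * Q) := by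
  have h1 := congrArg (matE (2 * g)).symm hy
  rw [map_mul, map_mul] at h1
  unfold pr at h1
  rwa [AlgEquiv.symm_apply_apply] at h1

theorem co_mul (hQP : Q * P = 1) {x y : EH A} (hx : pr P Q A * x = x * pr P Q A) :
    co P Q A (x * y) = co P Q A x * co P Q A y := by
  have h1 := pr_comm_symm hx
  rw [co_apply, co_apply, co_apply, map_mul]
  calc Q * ((matE (2 * g)).symm x * (matE (2 * g)).symm y) * P =
      Q * P * (Q * ((matE (2 * g)).symm x * (matE (2 * g)).symm y) * P) := by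
        rw [hQP, Matrix.one_mul]
    _ = Q * (P * Q * (matE (2 * g)).symm x) * (matE (2 * g)).symm y * P := by
        simp only [Matrix.mul_assoc]
    _ = _ := by
        rw [h1]
        simp only [Matrix.mul_assoc]

theorem co_io (hQP : Q * P = 1) (z : Matrix (Fin d) (Fin d) ℂ) : co P Q A (io P Q z) = z := by
  rw [co_apply, io_apply]
  have h1 : (matE (2 * g)).symm (matE (2 * g) (P * z * Q)) = P * z * Q :=
    AlgEquiv.symm_apply_apply _ _
  rw [h1, Matrix.mul_assoc P z Q, ← Matrix.mul_assoc Q P, hQP, Matrix.one_mul, Matrix.mul_assoc,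
    hQP, Matrix.mul_one]

theorem io_co (hQP : Q * P = 1) {y : EH A} (hy : pr P Q A * y = y * pr P Q A) :
    io P Q (co P Q A y) = pr P Q A * y := by
  have h1 := pr_comm_symm hy
  have h2 : pr P Q A * y = matE (2 * g) (P * Q * (matE (2 * g)).symm y) := by
    rw [map_mul, AlgEquiv.apply_symm_apply]
    rfl
  rw [h2, io_apply, co_apply]
  congr 1
  calc P * (Q * (matE (2 * g)).symm y * P) * Q = P * Q * ((matE (2 * g)).symm y * (P * Q)) := by
        simp only [Matrix.mul_assoc]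
    _ = P * (Q * P) * Q * (matE (2 * g)).symm y := by rw [← h1]; simp only [Matrix.mul_assoc]
    _ = P * Q * (matE (2 * g)).symm y := by rw [hQP, Matrix.mul_one]

theorem co_zero (hQP : Q * P = 1) {y : EH A} (hy : pr P Q A * y = y * pr P Q A) :
    co P Q A y = 0 ↔ pr P Q A * y = 0 := by
  rw [← io_co hQP hy]
  constructor
  · intro h
    rw [h, map_zero]
  · intro h
    exact io_inj hQP (h.trans (map_zero _).symm)

section one

variable (h : SpP A E P Q)
include h

theorem SpP.rig : RigPart A (pr P Q A) ((so1 E).map (io P Q)) := by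
  refine rigPart_corner (so1_rigid h.square h.anti h.rank)
    (fun x hx y hy => so1_br h.square h.anti hx hy) h.proj h.stable h.acts fun z hz => ?_
  induction hz using Submodule.span_induction with
  | mem x hx =>
    obtain ⟨i, j, hij, rfl⟩ := hx
    exact h.gen i j hij
  | zero => exact ⟨0, Subalgebra.zero_mem _, by rw [Matrix.mul_zero, Matrix.zero_mul]⟩
  | add x y _ _ hx hy =>
    obtain ⟨a, ha, h1⟩ := hx
    obtain ⟨b, hb, h2⟩ := hy
    exact ⟨a + b, Subalgebra.add_mem _ ha hb, by rw [Matrix.mul_add, Matrix.add_mul, h1, h2]⟩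
  | smul t x _ hx =>
    obtain ⟨a, ha, h1⟩ := hx
    exact ⟨t • a, Subalgebra.smul_mem _ ha t, by rw [Matrix.mul_smul, Matrix.smul_mul, h1]⟩

theorem SpP.epart : EPart A (pr P Q A) := RigPart.epart h.rig

theorem SpP.perf : Perf ((so1 E).map (io P Q)) :=
  (so1_perf h.square h.anti h.rank).map _ (io_mul h.proj)

theorem SpP.im : imE (pr P Q A) = (so1 E).map (io P Q) := im_eq h.rig h.perf

theorem SpP.simp : Simp ((so1 E).map (io P Q)) :=
  (so1_simp h.square h.anti h.rank).map _ (io_inj h.proj) (io_mul h.proj)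

theorem SpP.finrank_im (hd : 0 < d) : finrank ℂ (imE (pr P Q A)) = r * (r - 1) / 2 := by
  rw [h.im, ← so1_finrank h.square h.anti hd]
  exact LinearEquiv.finrank_eq (Submodule.equivMapOfInjective _ (io_inj h.proj) _).symm

theorem SpP.co_comm {𝔮 : Submodule ℚ (Module.End ℚ A.H1)} (hq : A.Full 𝔮) {y : EH A}
    (hy : y ∈ cx (Pool.Agent.Y102.der 𝔮)) : pr P Q A * y = y * pr P Q A :=
  h.epart.comm y (cxd_le hq hy)

/-- The image of the derived algebra of a full subalgebra. -/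
theorem SpP.co_map {𝔮 : Submodule ℚ (Module.End ℚ A.H1)} (hq : A.Full 𝔮) :
    (cx (Pool.Agent.Y102.der 𝔮)).map (co P Q A) = so1 E := by
  have h1 := h.epart.map_eq hq
  rw [h.im] at h1
  refine le_antisymm ?_ fun z hz => ?_
  · rintro _ ⟨y, hy, rfl⟩
    have h2 : pr P Q A * y ∈ (so1 E).map (io P Q) := by
      rw [← h1]
      exact ⟨y, hy, rfl⟩
    obtain ⟨z, hz, h3⟩ := h2
    rw [← io_co h.proj (h.co_comm hq hy)] at h3
    rw [← io_inj h.proj h3]
    exact hz
  · have h2 : io P Q z ∈ (so1 E).map (io P Q) := ⟨z, hz, rfl⟩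
    rw [← h1] at h2
    obtain ⟨y, hy, h3⟩ := h2
    refine ⟨y, hy, ?_⟩
    have h4 : pr P Q A * y = io P Q z := h3
    rw [← io_co h.proj (h.co_comm hq hy)] at h4
    exact io_inj h.proj h4

end one

/-! ### Pairs -/

variable {d' : ℕ} {E' : Fin r → Matrix (Fin d') (Fin d') ℂ}
    {P' : Matrix (Fin (2 * g)) (Fin d') ℂ} {Q' : Matrix (Fin d') (Fin (2 * g)) ℂ}

/-- the endomorphisms -/
abbrev tl (d : ℕ) : Matrix (Fin d) (Fin d) ℂ →ₗ[ℂ] Module.End ℂ (Fin d → ℂ) :=
  (Matrix.toLinAlgEquiv' (R := ℂ) (n := Fin d)).toLinearMap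

theorem tl_mul {d : ℕ} (x y : Matrix (Fin d) (Fin d) ℂ) : tl d (x * y) = tl d x * tl d y :=
  map_mul (Matrix.toLinAlgEquiv' (R := ℂ) (n := Fin d)) x y

theorem tl_inj {d : ℕ} : Injective (tl d) :=
  (Matrix.toLinAlgEquiv' (R := ℂ) (n := Fin d)).injective

theorem tl_apply {d : ℕ} (x : Matrix (Fin d) (Fin d) ℂ) (v : Fin d → ℂ) :
    tl d x v = x.mulVec v := by
  change Matrix.toLinAlgEquiv' x v = _
  rw [Matrix.toLinAlgEquiv'_apply]

/-- **Linked parts have an intertwining matrix.** -/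
theorem exists_T (h : SpP A E P Q) (h' : SpP A E' P' Q') (hd : 0 < d) (hd' : 0 < d')
    {𝔮 : Submodule ℚ (Module.End ℚ A.H1)} (hq : A.Full 𝔮)
    (hl : Lkd (pr P Q A) (pr P' Q' A) 𝔮) :
    ∃ T : Matrix (Fin d') (Fin d) ℂ, T ≠ 0 ∧ ∀ y ∈ cx (Pool.Agent.Y102.der 𝔮),
      T * co P Q A y = co P' Q' A y * T := by
  have i1 : Nonempty (Fin d) := ⟨⟨0, hd⟩⟩
  have i2 : Nonempty (Fin d') := ⟨⟨0, hd'⟩⟩
  let F : EH A →ₗ[ℂ] Module.End ℂ (Fin d → ℂ) := tl d ∘ₗ co P Q A
  let F' : EH A →ₗ[ℂ] Module.End ℂ (Fin d' → ℂ) := tl d' ∘ₗ co P' Q' A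
  have hF : (cx (Pool.Agent.Y102.der 𝔮)).map F = Pool.Agent.Y102.SP.soE (enM E) := by
    rw [Submodule.map_comp, h.co_map hq]
    exact so1_map E
  have hF' : (cx (Pool.Agent.Y102.der 𝔮)).map F' = Pool.Agent.Y102.SP.soE (enM E') := by
    rw [Submodule.map_comp, h'.co_map hq]
    exact so1_map E'
  have hm : ∀ x ∈ cx (Pool.Agent.Y102.der 𝔮), ∀ y ∈ cx (Pool.Agent.Y102.der 𝔮),
      F (x * y - y * x) = F x * F y - F y * F x := by
    intro x hx y hy
    rw [map_sub]
    change tl d (co P Q A (x * y)) - tl d (co P Q A (y * x)) = tl d (co P Q A x) *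
      tl d (co P Q A y) - tl d (co P Q A y) * tl d (co P Q A x)
    rw [co_mul h.proj (h.co_comm hq hx), co_mul h.proj (h.co_comm hq hy), tl_mul, tl_mul]
  have hm' : ∀ x ∈ cx (Pool.Agent.Y102.der 𝔮), ∀ y ∈ cx (Pool.Agent.Y102.der 𝔮),
      F' (x * y - y * x) = F' x * F' y - F' y * F' x := by
    intro x hx y hy
    rw [map_sub]
    change tl d' (co P' Q' A (x * y)) - tl d' (co P' Q' A (y * x)) = tl d' (co P' Q' A x) *
      tl d' (co P' Q' A y) - tl d' (co P' Q' A y) * tl d' (co P' Q' A x)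
    rw [co_mul h'.proj (h'.co_comm hq hx), co_mul h'.proj (h'.co_comm hq hy), tl_mul, tl_mul]
  have key := link1 (enM_CE h.square h.anti) (enM_CE h'.square h'.anti) h.rank
    (𝔮 := (cx (Pool.Agent.Y102.der 𝔮)).map (F.prod F')) ?_ ?_ ?_ ?_ ?_
  · obtain ⟨T, hT0, hT⟩ := key
    refine ⟨LinearMap.toMatrix' T, fun h0 => hT0 ?_, fun y hy => ?_⟩
    · exact (LinearEquiv.map_eq_zero_iff _).1 h0
    · have h1 := hT (F y) (F' y) ⟨y, hy, rfl⟩
      have h2 := congrArg LinearMap.toMatrix' h1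
      rw [LinearMap.toMatrix'_comp, LinearMap.toMatrix'_comp] at h2
      have h3 : LinearMap.toMatrix' (F y) = co P Q A y := by
        change LinearMap.toMatrix' (Matrix.toLin' (co P Q A y)) = _
        rw [LinearMap.toMatrix'_toLin']
      have h4 : LinearMap.toMatrix' (F' y) = co P' Q' A y := by
        change LinearMap.toMatrix' (Matrix.toLin' (co P' Q' A y)) = _
        rw [LinearMap.toMatrix'_toLin']
      rw [h3, h4] at h2
      exact h2.symm
  · rintro _ ⟨x, hx, rfl⟩ _ ⟨y, hy, rfl⟩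
    refine ⟨x * y - y * x, cxd_br hq x hx y hy, ?_⟩
    exact Prod.ext (hm x hx y hy) (hm' x hx y hy)
  · rw [← Submodule.map_comp, LinearMap.fst_prod, hF]
  · rw [← Submodule.map_comp, LinearMap.snd_prod, hF']
  · rintro Y ⟨y, hy, h1⟩
    have h2 : F y = 0 := congrArg Prod.fst h1
    have h3 : F' y = Y := congrArg Prod.snd h1
    have h4 : co P Q A y = 0 := tl_inj (h2.trans (map_zero _).symm)
    rw [co_zero h.proj (h.co_comm hq hy), hl y hy, ← co_zero h'.proj (h'.co_comm hq hy)] at h4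
    rw [← h3]
    change tl d' (co P' Q' A y) = 0
    rw [h4, map_zero]
  · rintro X ⟨y, hy, h1⟩
    have h2 : F y = X := congrArg Prod.fst h1
    have h3 : F' y = 0 := congrArg Prod.snd h1
    have h4 : co P' Q' A y = 0 := tl_inj (h3.trans (map_zero _).symm)
    rw [co_zero h'.proj (h'.co_comm hq hy), ← hl y hy, ← co_zero h.proj (h.co_comm hq hy)] at h4
    rw [← h2]
    change tl d (co P Q A y) = 0
    rw [h4, map_zero]

/-- A central element acts by a scalar. -/
theorem SpP.scalar (h : SpP A E P Q) {𝔮 : Submodule ℚ (Module.End ℚ A.H1)} (hq : A.Full 𝔮)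
    {Z : Module.End ℚ A.H1} (hZ : Z ∈ 𝔮) (hZc : ∀ Y ∈ 𝔮, Z * Y = Y * Z) {t : ℂ}
    (ht : Q * toC Z * P + t • (1 : Matrix (Fin d) (Fin d) ℂ) ∈ so1 E) :
    Q * toC Z * P = -t • (1 : Matrix (Fin d) (Fin d) ℂ) := by
  have h1 : Q * toC Z * P + t • (1 : Matrix (Fin d) (Fin d) ℂ) = 0 := by
    refine (so1_simp h.square h.anti h.rank).centre (so1_perf h.square h.anti h.rank) ht ?_
    intro z hz
    rw [← h.co_map hq] at hz
    obtain ⟨y, hy, rfl⟩ := hz
    have hZN : Z.baseChange ℂ ∈ cx A.NA := bc_mem (hq.le hZ)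
    have e1 : pr P Q A * Z.baseChange ℂ = Z.baseChange ℂ * pr P Q A := h.epart.comm _ hZN
    have e2 : Z.baseChange ℂ * y = y * Z.baseChange ℂ := by
      have h3 : ∀ y ∈ cx 𝔮, Z.baseChange ℂ * y = y * Z.baseChange ℂ :=
        cx_comm fun Y hY => by rw [← bc_mul, ← bc_mul, hZc Y hY]
      exact h3 y (cx_mono hq.der_le hy)
    rw [← co_bc, add_mul, mul_add, ← co_mul h.proj e1, ← co_mul h.proj (h.co_comm hq hy), e2,
      smul_mul_assoc, mul_smul_comm, Matrix.one_mul, Matrix.mul_one]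
  rw [neg_smul]
  exact eq_neg_of_add_eq_zero_left h1

/-- **Equal scalars**: an intertwining matrix for the derived algebra of a full subalgebra is an
intertwining matrix. -/
theorem extend_T (h : SpP A E P Q) (h' : SpP A E' P' Q')
    (hs : ∀ X ∈ A.NA, ∃ t : ℂ, Q * toC X * P + t • (1 : Matrix (Fin d) (Fin d) ℂ) ∈ so1 E ∧
      Q' * toC X * P' + t • (1 : Matrix (Fin d') (Fin d') ℂ) ∈ so1 E')
    {𝔮 : Submodule ℚ (Module.End ℚ A.H1)} (hq : A.Full 𝔮) {T : Matrix (Fin d') (Fin d) ℂ}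
    (hT : ∀ y ∈ cx (Pool.Agent.Y102.der 𝔮), T * co P Q A y = co P' Q' A y * T) :
    ∀ X ∈ A.NA, T * (Q * toC X * P) = (Q' * toC X * P') * T := by
  have h1 : ∀ X ∈ 𝔮, T * (Q * toC X * P) = (Q' * toC X * P') * T := by
    intro X hX
    obtain ⟨Z, hZ, D, hD, rfl, hZc⟩ := hq.dec hX
    obtain ⟨t, ht, ht'⟩ := hs Z (hq.le hZ)
    have e1 := h.scalar hq hZ hZc ht
    have e2 := h'.scalar hq hZ hZc ht'
    have e3 := hT _ (bc_mem hD)
    rw [co_bc, co_bc] at e3
    have e4 : (toC (Z + D) : Matrix (Fin (2 * g)) (Fin (2 * g)) ℂ) = toC Z + toC D := by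
      ext i j
      simp [toC]
    rw [e4, Matrix.mul_add, Matrix.add_mul, Matrix.mul_add, Matrix.mul_add, Matrix.add_mul,
      Matrix.add_mul, e1, e2, e3, Matrix.mul_smul, Matrix.smul_mul, Matrix.mul_one, Matrix.one_mul]
  let τ : EH A := matE (2 * g) (P' * T * Q)
  have h2 : ∀ X : Module.End ℚ A.H1, P * Q * toC X = toC X * (P * Q) →
      P' * Q' * toC X = toC X * (P' * Q') → T * (Q * toC X * P) = (Q' * toC X * P') * T →
      τ * X.baseChange ℂ = X.baseChange ℂ * τ := by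
    intro X c1 c2 e
    have hbc : X.baseChange ℂ = matE (2 * g) (toC X) := (matE_toC X).symm
    rw [hbc, ← map_mul, ← map_mul]
    congr 1
    calc P' * T * Q * toC X = P' * T * (Q * P) * Q * toC X := by rw [h.proj, Matrix.mul_one]
      _ = P' * T * Q * (P * Q * toC X) := by simp only [Matrix.mul_assoc]
      _ = P' * (T * (Q * toC X * P)) * Q := by rw [c1]; simp only [Matrix.mul_assoc]
      _ = (P' * Q' * toC X) * P' * T * Q := by rw [e]; simp only [Matrix.mul_assoc]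
      _ = toC X * P' * (Q' * P') * T * Q := by rw [c2]; simp only [Matrix.mul_assoc]
      _ = toC X * (P' * T * Q) := by rw [h'.proj, Matrix.mul_one]; simp only [Matrix.mul_assoc]
  have h3 : ∀ X ∈ cx 𝔮, τ * X = X * τ := cx_comm fun X hX =>
    h2 X (h.stable X (hq.le hX)) (h'.stable X (hq.le hX)) (h1 X hX)
  have h4 := hq.cx_com τ h3
  intro X hX
  have h5 := h4 _ (bc_mem hX)
  have hbc : X.baseChange ℂ = matE (2 * g) (toC X) := (matE_toC X).symm
  rw [hbc] at h5
  have h6 : P' * T * Q * toC X = toC X * (P' * T * Q) := by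
    rw [← map_mul, ← map_mul] at h5
    exact (matE (2 * g)).injective h5
  calc T * (Q * toC X * P) = (Q' * P') * T * (Q * toC X * P) := by rw [h'.proj, Matrix.one_mul]
    _ = Q' * (P' * T * Q * toC X) * P := by simp only [Matrix.mul_assoc]
    _ = Q' * toC X * P' * T * (Q * P) := by rw [h6]; simp only [Matrix.mul_assoc]
    _ = (Q' * toC X * P') * T := by rw [h.proj, Matrix.mul_one]

/-- the centre of the Lie algebra -/
def cenL (A : AbVar g) : Set (Module.End ℚ A.H1) := {Z | Z ∈ A.NA ∧ ∀ Y ∈ A.NA, Z * Y = Y * Z}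

/-- A full subalgebra is generated by its derived algebra and the centre. -/
theorem full_gen {𝔮 : Submodule ℚ (Module.End ℚ A.H1)} (hq : A.Full 𝔮) :
    ∀ X ∈ A.NA, X ∈ Algebra.adjoin ℚ ((Pool.Agent.Y102.der 𝔮 : Set (Module.End ℚ A.H1)) ∪
      cenL A) := by
  intro X hX
  have h1 : Algebra.adjoin ℚ (𝔮 : Set (Module.End ℚ A.H1)) ≤
      Algebra.adjoin ℚ ((Pool.Agent.Y102.der 𝔮 : Set (Module.End ℚ A.H1)) ∪ cenL A) := by
    refine Algebra.adjoin_le fun Y hY => ?_
    obtain ⟨Z, hZ, D, hD, rfl, hZc⟩ := hq.dec hY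
    refine Subalgebra.add_mem _ (Algebra.subset_adjoin (Or.inr ⟨hq.le hZ, ?_⟩))
      (Algebra.subset_adjoin (Or.inl hD))
    have h2 : ∀ X ∈ 𝔮, X * Z = Z * X := fun X hX => (hZc X hX).symm
    exact fun Y hY => (hq.comm Z h2 Y hY).symm
  exact h1 (hq.adjoin hX)

/-- The subalgebra `𝔥` and the derived algebra have the same image on the part. -/
def SameIm (A : AbVar g) {d : ℕ} (𝔥 : Submodule ℚ (Module.End ℚ A.H1))
    (Q : Matrix (Fin d) (Fin (2 * g)) ℂ) : Prop :=
  ∀ X ∈ Pool.Agent.Y102.der A.NA, ∃ Y ∈ Submodule.span ℂ {Y | ∃ X ∈ 𝔥, Y = toC X},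
    Q * toC X = Q * Y

theorem SpP.sameIm (h : SpP A E P Q) {𝔮 : Submodule ℚ (Module.End ℚ A.H1)} (hq : A.Full 𝔮) :
    SameIm A (Pool.Agent.Y102.der 𝔮) Q := by
  intro X hX
  obtain ⟨y, hy, h1⟩ := h.epart.der 𝔮 hq X hX
  rw [← map_lie (Pool.Agent.Y102.der 𝔮)] at hy
  obtain ⟨Y, hY, rfl⟩ := hy
  refine ⟨Y, hY, ?_⟩
  have hbc : X.baseChange ℂ = matE (2 * g) (toC X) := (matE_toC X).symm
  have h2 : matE (2 * g) (P * Q * toC X) = matE (2 * g) (P * Q * Y) := by
    rw [map_mul, map_mul, ← hbc]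
    exact h1
  have h3 := (matE (2 * g)).injective h2
  have h4 : ∀ Z : Matrix (Fin (2 * g)) (Fin (2 * g)) ℂ, Q * (P * Q * Z) = Q * Z := fun Z => by
    rw [← Matrix.mul_assoc, ← Matrix.mul_assoc, h.proj, Matrix.one_mul]
  rw [← h4, h3, h4]

/-- **Unlinked parts.** -/
def Unlk (A : AbVar g) {r r' d d' : ℕ} (E : Fin r → Matrix (Fin d) (Fin d) ℂ)
    (P : Matrix (Fin (2 * g)) (Fin d) ℂ) (Q : Matrix (Fin d) (Fin (2 * g)) ℂ)
    (E' : Fin r' → Matrix (Fin d') (Fin d') ℂ)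
    (P' : Matrix (Fin (2 * g)) (Fin d') ℂ) (Q' : Matrix (Fin d') (Fin (2 * g)) ℂ) : Prop :=
  r ≠ r' ∨
  ((∀ X ∈ A.NA, ∃ t : ℂ, Q * toC X * P + t • (1 : Matrix (Fin d) (Fin d) ℂ) ∈ so1 E ∧
      Q' * toC X * P' + t • (1 : Matrix (Fin d') (Fin d') ℂ) ∈ so1 E') ∧
    ∀ T : Matrix (Fin d') (Fin d) ℂ,
      (∀ X ∈ A.NA, T * (Q * toC X * P) = (Q' * toC X * P') * T) → T = 0) ∨
  (∀ 𝔥 : Submodule ℚ (Module.End ℚ A.H1), 𝔥 ≤ Pool.Agent.Y102.der A.NA →
    (∀ X ∈ 𝔥, ∀ Y ∈ 𝔥, X * Y - Y * X ∈ 𝔥) →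
    (∀ X ∈ A.NA, X ∈ Algebra.adjoin ℚ ((𝔥 : Set (Module.End ℚ A.H1)) ∪ cenL A)) →
    SameIm A 𝔥 Q → SameIm A 𝔥 Q' →
    ∀ T : Matrix (Fin d') (Fin d) ℂ,
      (∀ X ∈ 𝔥, T * (Q * toC X * P) = (Q' * toC X * P') * T) → T = 0)

theorem sep2_of_unlk {r' : ℕ} {E' : Fin r' → Matrix (Fin d') (Fin d') ℂ} (h : SpP A E P Q)
    (h' : SpP A E' P' Q') (hu : Unlk A E P Q E' P' Q') : Sep2 A (pr P Q A) (pr P' Q' A) := by
  rcases Nat.eq_zero_or_pos d with rfl | hd
  · intro 𝔮 hq X hX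
    have h1 : pr P Q A = 0 := by
      unfold pr
      have : P * Q = 0 := by
        ext i j
        rw [Matrix.mul_apply, Finset.univ_eq_empty, Finset.sum_empty]
        rfl
      rw [this, map_zero]
    exact ⟨0, Submodule.zero_mem _, by rw [h1, zero_mul, zero_mul], mul_zero _⟩
  rcases Nat.eq_zero_or_pos d' with rfl | hd'
  · intro 𝔮 hq X hX
    have h1 : pr P' Q' A = 0 := by
      unfold pr
      have : P' * Q' = 0 := by
        ext i j
        rw [Matrix.mul_apply, Finset.univ_eq_empty, Finset.sum_empty]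
        rfl
      rw [this, map_zero]
    obtain ⟨y, hy, h2⟩ := h.epart.der 𝔮 hq X hX
    exact ⟨y, hy, h2, by rw [h1, zero_mul]⟩
  refine sep2_of h.epart h'.epart (h.im ▸ h.simp) (h'.im ▸ h'.simp) fun 𝔮 hq hl => ?_
  have hrr : r = r' := by
    have h1 := hl.finrank_eq h.epart h'.epart hq
    rw [h.finrank_im hd, h'.finrank_im hd'] at h1
    by_contra hne
    have h3 : 3 ≤ r := by rcases h.rank with h4 | h4 <;> omega
    have h3' : 3 ≤ r' := by rcases h'.rank with h4 | h4 <;> omega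
    have key : ∀ a b : ℕ, 3 ≤ a → a < b → a * (a - 1) / 2 < b * (b - 1) / 2 := by
      intro a b ha hab
      have k1 : a * (a - 1) + 2 ≤ b * (b - 1) := by
        have k2 : (a + 1) * a ≤ b * (b - 1) := Nat.mul_le_mul hab (by omega)
        have k3 : a * (a - 1) + 2 * a = (a + 1) * a := by
          obtain ⟨c, rfl⟩ : ∃ c, a = c + 1 := ⟨a - 1, by omega⟩
          rw [Nat.add_sub_cancel]
          ring
        omega
      omega
    rcases lt_or_gt_of_ne hne with h4 | h4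
    · exact absurd h1 (key _ _ h3 h4).ne
    · exact absurd h1 (key _ _ h3' h4).ne'
  subst hrr
  obtain ⟨T, hT0, hT⟩ := exists_T h h' hd hd' hq hl
  rcases hu with hu | ⟨hu1, hu2⟩ | hu
  · exact hu rfl
  · exact hT0 (hu2 T (extend_T h h' hu1 hq hT))
  · refine hT0 (hu (Pool.Agent.Y102.der 𝔮) (der_mono hq.le) ?_ (full_gen hq)
      (h.sameIm hq) (h'.sameIm hq) T fun X hX => ?_)
    · exact fun X hX Y hY => Submodule.subset_span ⟨X, hq.der_le hX, Y, hq.der_le hY, rfl⟩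
    · have h1 := hT _ (bc_mem hX)
      rw [co_bc, co_bc] at h1
      exact h1

/-- **Families of spin parts.** -/
theorem dpart_spin {k : ℕ} {r d : Fin k → ℕ} {E : ∀ i, Fin (r i) → Matrix (Fin (d i)) (Fin (d i)) ℂ}
    {P : ∀ i, Matrix (Fin (2 * g)) (Fin (d i)) ℂ} {Q : ∀ i, Matrix (Fin (d i)) (Fin (2 * g)) ℂ}
    (h : ∀ i, SpP A (E i) (P i) (Q i))
    (hu : ∀ i j, i ≠ j → Unlk A (E i) (P i) (Q i) (E j) (P j) (Q j)) :
    DPart A (annF fun i => pr (P i) (Q i) A) :=
  dpart_fam _ (fun i => (h i).epart) fun i j hij => sep2_of_unlk (h i) (h j) (hu i j hij)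

end Pool.Agent.P8H30.SD
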