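import Pool.Agent.P8H30.SD.Simp

set_option autoImplicit false
set_option linter.unusedSectionVars false
set_option linter.unusedVariables false

/-!
# Spin parts with one colour
-/

open Module Function TensorProduct Matrix

noncomputable section

namespace Pool.Agent.P8H30.SD

open Pool.Agent.Y102 Pool.Agent.W516.DR Pool.Agent.H204R3.GP Pool.Agent.W516.KC
  Pool.Agent.H204R3.SP Pool.Agent.TH119.MX Pool.Agent.R917 Pool.Agent.N208.AM Pool.Agent.N113.BT
  Pool.Agent.N192.GP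

section quat

variable {R : Type} [Ring R] [Algebra ℂ R] {I J K : R}

theorem SQ_gen {V : Submodule ℂ R} (hV : Idl V (SQ I J K)) (h : Quat I J K)
    (h0 : I ∈ V ∨ J ∈ V ∨ K ∈ V) : V = SQ I J K := by
  have hI : I ∈ SQ I J K := mem_SQ.2 ⟨1, 0, 0, by unfold qv; module⟩
  have hJ : J ∈ SQ I J K := mem_SQ.2 ⟨0, 1, 0, by unfold qv; module⟩
  have hK : K ∈ SQ I J K := mem_SQ.2 ⟨0, 0, 1, by unfold qv; module⟩
  have half : ∀ x : R, (2 : ℂ) • x ∈ V → x ∈ V := by
    intro x hx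
    have := V.smul_mem (2⁻¹ : ℂ) hx
    rwa [smul_smul, inv_mul_cancel₀ (two_ne_zero), one_smul] at this
  have f1 : I ∈ V → J ∈ V := fun h1 => half _ (by
    have := hV.2 K hK I h1
    rwa [h.ki, h.ik, sub_neg_eq_add, ← two_smul ℂ J] at this)
  have f2 : J ∈ V → K ∈ V := fun h1 => half _ (by
    have := hV.2 I hI J h1
    rwa [h.ij, h.ji, sub_neg_eq_add, ← two_smul ℂ K] at this)
  have f3 : K ∈ V → I ∈ V := fun h1 => half _ (by
    have := hV.2 J hJ K h1
    rwa [h.jk, h.kj, sub_neg_eq_add, ← two_smul ℂ I] at this)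
  have hI' : I ∈ V := by
    rcases h0 with h1 | h1 | h1
    · exact h1
    · exact f3 (f2 h1)
    · exact f3 h1
  refine le_antisymm hV.1 ?_
  intro x hx
  obtain ⟨a, b, c, rfl⟩ := mem_SQ.1 hx
  exact V.add_mem (V.add_mem (V.smul_mem a hI') (V.smul_mem b (f1 hI')))
    (V.smul_mem c (f2 (f1 hI')))

/-- The Lie algebra is simple. -/
theorem Quat.simp (h : Quat I J K) : Simp (SQ I J K) := by
  intro V hV
  by_cases hV0 : V = ⊥
  · exact Or.inl hV0
  right
  obtain ⟨v, hv, hv0⟩ := (Submodule.ne_bot_iff V).1 hV0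
  obtain ⟨x, y, z, rfl⟩ := mem_SQ.1 (hV.1 hv)
  have hb : ∀ a b c : ℂ, ∀ p q r : ℂ, qv I J K p q r ∈ V →
      qv I J K (b * r - c * q) (c * p - a * r) (a * q - b * p) ∈ V := by
    intro a b c p q r h1
    have h2 := hV.2 _ (mem_SQ.2 ⟨a, b, c, rfl⟩) _ h1
    rw [h.br] at h2
    have := V.smul_mem (2⁻¹ : ℂ) h2
    rwa [smul_smul, inv_mul_cancel₀ (two_ne_zero), one_smul] at this
  have e1 : qv I J K 1 0 0 = I := by unfold qv; module
  have e2 : qv I J K 0 1 0 = J := by unfold qv; module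
  have e3 : qv I J K 0 0 1 = K := by unfold qv; module
  have sc : ∀ (t : ℂ) (p q r : ℂ), t ≠ 0 → qv I J K (t * p) (t * q) (t * r) ∈ V →
      qv I J K p q r ∈ V := by
    intro t p q r ht h1
    have := V.smul_mem t⁻¹ h1
    have h2 : t⁻¹ • qv I J K (t * p) (t * q) (t * r) = qv I J K p q r := by
      unfold qv
      rw [smul_add, smul_add, smul_smul, smul_smul, smul_smul, inv_mul_cancel_left₀ ht,
        inv_mul_cancel_left₀ ht, inv_mul_cancel_left₀ ht]
    rwa [h2] at this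
  by_cases hx : x = 0
  · by_cases hy : y = 0
    · have hz : z ≠ 0 := by
        rintro rfl
        apply hv0
        rw [hx, hy]
        unfold qv
        module
      refine SQ_gen hV h (Or.inr (Or.inr ?_))
      rw [← e3]
      refine sc z _ _ _ hz ?_
      rw [mul_zero, mul_one]
      rw [hx, hy] at hv
      exact hv
    · -- `y ≠ 0`: bracket with `K` and then with `J`
      refine SQ_gen hV h (Or.inr (Or.inr ?_))
      rw [← e3]
      refine sc (y) _ _ _ hy ?_
      -- `e3 × (x, y, z) = (-y, x, 0)`, `e2 × (-y, x, 0) = (0, 0, y)`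
      have h1 := hb 0 0 1 _ _ _ hv
      have h2 := hb 0 1 0 _ _ _ h1
      convert h2 using 1
      unfold qv
      congr 1
      · congr 1
        · congr 1; ring
        · congr 1; ring
      · congr 1; ring
  · refine SQ_gen hV h (Or.inr (Or.inr ?_))
    rw [← e3]
    refine sc (x) _ _ _ hx ?_
    -- `e3 × (x, y, z) = (-y, x, 0)`, `e1 × (-y, x, 0) = (0, 0, x)`
    have h1 := hb 0 0 1 _ _ _ hv
    have h2 := hb 1 0 0 _ _ _ h1
    convert h2 using 1
    unfold qv
    congr 1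
    · congr 1
      · congr 1; ring
      · congr 1; ring
    · congr 1; ring

end quat

/-! ### Systems of generators -/

variable {r d : ℕ}

/-- The Lie algebra of a system of matrices. -/
def so1 (E : Fin r → Matrix (Fin d) (Fin d) ℂ) : Submodule ℂ (Matrix (Fin d) (Fin d) ℂ) :=
  Submodule.span ℂ {x | ∃ i j, i ≠ j ∧ x = E i * E j}

/-- one colour -/
def col (r : ℕ) : Fin r → Fin 1 := fun _ => 0

theorem so1_eq (E : Fin r → Matrix (Fin d) (Fin d) ℂ) : so1 E = soM E (col r) := by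
  unfold so1 soM
  congr 1
  ext x
  constructor
  · rintro ⟨i, j, hij, rfl⟩
    exact ⟨i, j, hij, rfl, rfl⟩
  · rintro ⟨i, j, hij, -, rfl⟩
    exact ⟨i, j, hij, rfl⟩

theorem soC_col {U : Type} [AddCommGroup U] [Module ℂ U] (E : Fin r → Module.End ℂ U) :
    Pool.Agent.Y102.SP.soC E (col r) = Pool.Agent.Y102.SP.soE E := by
  unfold Pool.Agent.Y102.SP.soC Pool.Agent.Y102.SP.soE
  congr 1
  ext x
  constructor
  · rintro ⟨i, j, hij, -, rfl⟩
    exact ⟨i, j, hij, rfl⟩
  · rintro ⟨i, j, hij, rfl⟩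
    exact ⟨i, j, hij, rfl, rfl⟩

theorem so1_map (E : Fin r → Matrix (Fin d) (Fin d) ℂ) :
    (so1 E).map (Matrix.toLinAlgEquiv' (R := ℂ) (n := Fin d)).toLinearMap =
      Pool.Agent.Y102.SP.soE (enM E) := by
  rw [so1_eq, soM_map, soC_col]

theorem so1_symm (E : Fin r → Matrix (Fin d) (Fin d) ℂ) :
    so1 E = (Pool.Agent.Y102.SP.soE (enM E)).map
      (Matrix.toLinAlgEquiv' (R := ℂ) (n := Fin d)).symm.toLinearMap := by
  rw [← so1_map, ← Submodule.map_comp]
  have : (Matrix.toLinAlgEquiv' (R := ℂ) (n := Fin d)).symm.toLinearMap ∘ₗ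
      (Matrix.toLinAlgEquiv' (R := ℂ) (n := Fin d)).toLinearMap = LinearMap.id := by
    ext x
    simp
  rw [this, Submodule.map_id]

section sys

variable {E : Fin r → Matrix (Fin d) (Fin d) ℂ}

theorem col_card (i : Fin r) : (Finset.univ.filter fun j => col r j = col r i).card = r := by
  have h1 : (Finset.univ.filter fun j => col r j = col r i) = Finset.univ :=
    Finset.filter_true_of_mem fun j _ => Subsingleton.elim _ _
  rw [h1, Finset.card_univ, Fintype.card_fin]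

theorem col_card' (s : Fin 1) : (Finset.univ.filter fun j => col r j = s).card = r := by
  rw [Finset.filter_true_of_mem fun j _ => Subsingleton.elim _ _, Finset.card_univ,
    Fintype.card_fin]

/-- The quaternion units of a system of rank three. -/
theorem quat_of {R : Type} [Ring R] {E : Fin 3 → R} (hsq : ∀ i, E i * E i = 1)
    (hanti : ∀ i j, i ≠ j → E i * E j = -(E j * E i)) :
    Quat (E 0 * E 1) (E 1 * E 2) (E 0 * E 2) := by
  have a01 := hanti 0 1 (by decide)
  have a12 := hanti 1 2 (by decide)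
  have a02 := hanti 0 2 (by decide)
  have a10 := hanti 1 0 (by decide)
  have a21 := hanti 2 1 (by decide)
  have a20 := hanti 2 0 (by decide)
  have s0 := hsq 0
  have s1 := hsq 1
  have s2 := hsq 2
  have k0 : ∀ x, E 0 * (E 0 * x) = x := fun x => by rw [← mul_assoc, s0, one_mul]
  have k1 : ∀ x, E 1 * (E 1 * x) = x := fun x => by rw [← mul_assoc, s1, one_mul]
  have k2 : ∀ x, E 2 * (E 2 * x) = x := fun x => by rw [← mul_assoc, s2, one_mul]
  have c10 : ∀ x, E 1 * (E 0 * x) = -(E 0 * (E 1 * x)) := fun x => by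
    rw [← mul_assoc, a10, neg_mul, mul_assoc]
  have c21 : ∀ x, E 2 * (E 1 * x) = -(E 1 * (E 2 * x)) := fun x => by
    rw [← mul_assoc, a21, neg_mul, mul_assoc]
  have c20 : ∀ x, E 2 * (E 0 * x) = -(E 0 * (E 2 * x)) := fun x => by
    rw [← mul_assoc, a20, neg_mul, mul_assoc]
  constructor <;>
    simp only [mul_assoc, a10, a21, a20, c10, c21, c20, k0, k1, k2, s0, s1, s2, mul_neg, neg_mul,
      neg_neg, mul_one]

theorem SQ_eq {R : Type} [Ring R] [Algebra ℂ R] {E : Fin 3 → R}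
    (hanti : ∀ i j, i ≠ j → E i * E j = -(E j * E i)) :
    Submodule.span ℂ {x | ∃ i j, i ≠ j ∧ x = E i * E j} =
      SQ (E 0 * E 1) (E 1 * E 2) (E 0 * E 2) := by
  have h1 : E 0 * E 1 ∈ SQ (E 0 * E 1) (E 1 * E 2) (E 0 * E 2) :=
    Submodule.subset_span (by simp)
  have h2 : E 1 * E 2 ∈ SQ (E 0 * E 1) (E 1 * E 2) (E 0 * E 2) :=
    Submodule.subset_span (by simp)
  have h3 : E 0 * E 2 ∈ SQ (E 0 * E 1) (E 1 * E 2) (E 0 * E 2) :=
    Submodule.subset_span (by simp)
  refine le_antisymm ?_ ?_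
  · rw [Submodule.span_le]
    rintro _ ⟨i, j, hij, rfl⟩
    fin_cases i <;> fin_cases j
    · exact absurd rfl hij
    · exact h1
    · exact h3
    · change E 1 * E 0 ∈ _
      rw [hanti 1 0 (by decide)]
      exact Submodule.neg_mem _ h1
    · exact absurd rfl hij
    · exact h2
    · change E 2 * E 0 ∈ _
      rw [hanti 2 0 (by decide)]
      exact Submodule.neg_mem _ h3
    · change E 2 * E 1 ∈ _
      rw [hanti 2 1 (by decide)]
      exact Submodule.neg_mem _ h2
    · exact absurd rfl hij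
  · unfold SQ
    rw [Submodule.span_le]
    rintro x hx
    rcases hx with rfl | rfl | rfl
    · exact Submodule.subset_span ⟨0, 1, by decide, rfl⟩
    · exact Submodule.subset_span ⟨1, 2, by decide, rfl⟩
    · exact Submodule.subset_span ⟨0, 2, by decide, rfl⟩

theorem so1_br (hsq : ∀ i, E i * E i = 1) (hanti : ∀ i j, i ≠ j → E i * E j = -(E j * E i))
    {x y : Matrix (Fin d) (Fin d) ℂ} (hx : x ∈ so1 E) (hy : y ∈ so1 E) :
    x * y - y * x ∈ so1 E := by
  rw [so1_eq] at hx hy ⊢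
  exact soM_br hsq hanti hx hy

/-- **The Lie algebras are rigid.** -/
theorem so1_rigid (hsq : ∀ i, E i * E i = 1) (hanti : ∀ i j, i ≠ j → E i * E j = -(E j * E i))
    (hr : r = 3 ∨ 6 ≤ r) : Rigid (so1 E) := by
  rcases hr with rfl | hr
  · rcases Nat.eq_zero_or_pos d with rfl | hd
    · intro 𝔥 _ _ _ x hx
      have h1 : x = 0 := Matrix.ext fun i => i.elim0
      rw [h1]
      exact 𝔥.zero_mem
    haveI : Nonempty (Fin d) := ⟨⟨0, hd⟩⟩
    have e1 : so1 E = SQ (E 0 * E 1) (E 1 * E 2) (E 0 * E 2) := SQ_eq hanti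
    rw [e1]
    exact fun 𝔥 h1 h2 h3 => (quat_of hsq hanti).rigid 𝔥 h1 h2 h3
  · rw [so1_eq]
    exact soM_rigid hsq hanti fun i => by rw [col_card]; exact hr

theorem so1_perf (hsq : ∀ i, E i * E i = 1) (hanti : ∀ i j, i ≠ j → E i * E j = -(E j * E i))
    (hr : r = 3 ∨ 6 ≤ r) : Perf (so1 E) := by
  rcases Nat.eq_zero_or_pos d with rfl | hd
  · intro x hx
    have h1 : x = 0 := Matrix.ext fun i => i.elim0
    rw [h1]
    exact Submodule.zero_mem _
  haveI : Nonempty (Fin d) := ⟨⟨0, hd⟩⟩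
  rw [so1_symm]
  refine Perf.map (S := Pool.Agent.Y102.SP.soE (enM E))
    (Pool.Agent.Y102.SP.so_perfect (by omega) (enM_CE hsq hanti)) _ fun x y => ?_
  exact map_mul (Matrix.toLinAlgEquiv' (R := ℂ) (n := Fin d)).symm x y

theorem so1_simp (hsq : ∀ i, E i * E i = 1) (hanti : ∀ i j, i ≠ j → E i * E j = -(E j * E i))
    (hr : r = 3 ∨ 6 ≤ r) : Simp (so1 E) := by
  rcases Nat.eq_zero_or_pos d with rfl | hd
  · intro J hJ
    left
    rw [Submodule.eq_bot_iff]
    intro x hx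
    exact Matrix.ext fun i => i.elim0
  haveI : Nonempty (Fin d) := ⟨⟨0, hd⟩⟩
  rcases hr with rfl | hr
  · have e1 : so1 E = SQ (E 0 * E 1) (E 1 * E 2) (E 0 * E 2) := SQ_eq hanti
    rw [e1]
    exact (quat_of hsq hanti).simp
  · rw [so1_symm]
    refine Simp.map (S := Pool.Agent.Y102.SP.soE (enM E)) (fun J hJ =>
      Pool.Agent.Y102.SP.so_simple (by omega) (enM_CE hsq hanti) J hJ.1 hJ.2) _
      (Matrix.toLinAlgEquiv' (R := ℂ) (n := Fin d)).symm.injective fun x y => ?_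
    exact map_mul (Matrix.toLinAlgEquiv' (R := ℂ) (n := Fin d)).symm x y

theorem so1_finrank (hsq : ∀ i, E i * E i = 1)
    (hanti : ∀ i j, i ≠ j → E i * E j = -(E j * E i)) (hd : 0 < d) :
    finrank ℂ (so1 E) = r * (r - 1) / 2 := by
  haveI : Nonempty (Fin d) := ⟨⟨0, hd⟩⟩
  rw [← finrank_soE (enM_CE hsq hanti), so1_symm]
  exact LinearEquiv.finrank_eq (Submodule.equivMapOfInjective _
    (Matrix.toLinAlgEquiv' (R := ℂ) (n := Fin d)).symm.injective _).symm

end sys

/-- **Linked Lie algebras.** -/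
theorem link1 {U U' : Type} [AddCommGroup U] [Module ℂ U] [AddCommGroup U'] [Module ℂ U']
    [FiniteDimensional ℂ U] [Nontrivial U] [FiniteDimensional ℂ U'] [Nontrivial U']
    {E : Fin r → Module.End ℂ U} {E' : Fin r → Module.End ℂ U'}
    (hE : Pool.Agent.Y102.SP.CE E) (hE' : Pool.Agent.Y102.SP.CE E') (hr : r = 3 ∨ 6 ≤ r)
    {𝔮 : Submodule ℂ (Module.End ℂ U × Module.End ℂ U')}
    (br : Br 𝔮) (fst : 𝔮.map (LinearMap.fst ℂ _ _) = Pool.Agent.Y102.SP.soE E)
    (snd : 𝔮.map (LinearMap.snd ℂ _ _) = Pool.Agent.Y102.SP.soE E')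
    (inj : ∀ Y, ((0, Y) : Module.End ℂ U × Module.End ℂ U') ∈ 𝔮 → Y = 0)
    (inj' : ∀ X, ((X, 0) : Module.End ℂ U × Module.End ℂ U') ∈ 𝔮 → X = 0) :
    ∃ T : U →ₗ[ℂ] U', T ≠ 0 ∧ ∀ x y, (x, y) ∈ 𝔮 → y.comp T = T.comp x := by
  rcases hr with rfl | hr
  · exact (quat_of hE.sq hE.anti).link (quat_of hE'.sq hE'.anti) br
      (fst.trans (SQ_eq hE.anti)) (snd.trans (SQ_eq hE'.anti)) inj inj'
  · have h : Lk E (col r) E' (col r) 𝔮 :=
      ⟨br, by rw [fst, soC_col], by rw [snd, soC_col], inj, inj'⟩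
    exact h.exists_T' hE hE' col_card' col_card' hr

end Pool.Agent.P8H30.SD
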