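import Pool.Agent.P8H30.SD.Quat

set_option autoImplicit false
set_option linter.unusedSectionVars false
set_option linter.unusedVariables false

/-!
# Linked Lie algebras `so(3)`
-/

open Module

noncomputable section

namespace Pool.Agent.P8H30.SD

open Pool.Agent.N192.GP

section rel

variable {R R' : Type} [Ring R] [Algebra ℂ R] [Ring R'] [Algebra ℂ R']
  {I J K : R} {I' J' K' : R'} {𝔮 : Submodule ℂ (R × R')}

/-- The images of the units are units. -/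
theorem Quat.exists_units [Nontrivial R] [Nontrivial R'] (h : Quat I J K) (h' : Quat I' J' K')
    (br : Br 𝔮) (fst : 𝔮.map (LinearMap.fst ℂ _ _) = SQ I J K)
    (snd : 𝔮.map (LinearMap.snd ℂ _ _) = SQ I' J' K')
    (inj : ∀ Y, ((0, Y) : R × R') ∈ 𝔮 → Y = 0) (inj' : ∀ X, ((X, 0) : R × R') ∈ 𝔮 → X = 0) :
    ∃ α β γ : R', Quat α β γ ∧ ∀ x y, (x, y) ∈ 𝔮 → ∃ a b c : ℂ, x = qv I J K a b c ∧
      y = qv α β γ a b c := by
  have hI : I ∈ SQ I J K := mem_SQ.2 ⟨1, 0, 0, by unfold qv; module⟩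
  have hJ : J ∈ SQ I J K := mem_SQ.2 ⟨0, 1, 0, by unfold qv; module⟩
  have hK : K ∈ SQ I J K := mem_SQ.2 ⟨0, 0, 1, by unfold qv; module⟩
  have ex : ∀ x ∈ SQ I J K, ∃ y, (x, y) ∈ 𝔮 := by
    intro x hx
    rw [← fst] at hx
    obtain ⟨⟨x', y⟩, hp, rfl⟩ := hx
    exact ⟨y, hp⟩
  have ex' : ∀ x y, (x, y) ∈ 𝔮 → y ∈ SQ I' J' K' := by
    intro x y hp
    rw [← snd]
    exact ⟨(x, y), hp, rfl⟩
  have uniq : ∀ x y y', (x, y) ∈ 𝔮 → (x, y') ∈ 𝔮 → y = y' := by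
    intro x y y' h1 h2
    have h3 := 𝔮.sub_mem h1 h2
    rw [Prod.mk_sub_mk, sub_self] at h3
    exact sub_eq_zero.1 (inj _ h3)
  have ne0 : ∀ x y, (x, y) ∈ 𝔮 → x ≠ 0 → y ≠ 0 := by
    rintro x y h1 h2 rfl
    exact h2 (inj' _ h1)
  have hI0 : I ≠ 0 := by
    rintro rfl
    have := h.ii
    rw [mul_zero] at this
    exact one_ne_zero (neg_eq_zero.1 this.symm)
  have hJ0 : J ≠ 0 := by
    rintro rfl
    have := h.jj
    rw [mul_zero] at this
    exact one_ne_zero (neg_eq_zero.1 this.symm)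
  have hK0 : K ≠ 0 := by
    rintro rfl
    have := h.kk
    rw [mul_zero] at this
    exact one_ne_zero (neg_eq_zero.1 this.symm)
  obtain ⟨α, hα⟩ := ex I hI
  obtain ⟨β, hβ⟩ := ex J hJ
  obtain ⟨γ, hγ⟩ := ex K hK
  have brk : ∀ x y z x' y' z', (x, x') ∈ 𝔮 → (y, y') ∈ 𝔮 → (z, z') ∈ 𝔮 →
      x * y - y * x = (2 : ℂ) • z → x' * y' - y' * x' = (2 : ℂ) • z' := by
    intro x y z x' y' z' h1 h2 h3 h4
    have h5 := br _ h1 _ h2
    rw [Prod.mk_mul_mk, Prod.mk_mul_mk, Prod.mk_sub_mk, h4] at h5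
    have h6 := 𝔮.smul_mem (2 : ℂ) h3
    rw [Prod.smul_mk] at h6
    exact uniq _ _ _ h5 h6
  have e1 := brk _ _ _ _ _ _ hα hβ hγ (by rw [h.ij, h.ji]; module)
  have e2 := brk _ _ _ _ _ _ hβ hγ hα (by rw [h.jk, h.kj]; module)
  have e3 := brk _ _ _ _ _ _ hγ hα hβ (by rw [h.ki, h.ik]; module)
  have hα0 := ne0 _ _ hα hI0
  have hβ0 := ne0 _ _ hβ hJ0
  have hγ0 := ne0 _ _ hγ hK0
  obtain ⟨a1, a2, a3, ha⟩ := mem_SQ.1 (ex' _ _ hα)
  obtain ⟨b1, b2, b3, hb⟩ := mem_SQ.1 (ex' _ _ hβ)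
  obtain ⟨c1, c2, c3, hc⟩ := mem_SQ.1 (ex' _ _ hγ)
  have hqs : ∀ x y z : ℂ, (2 : ℂ) • qv I' J' K' x y z = qv I' J' K' (2 * x) (2 * y) (2 * z) := by
    intro x y z
    unfold qv
    module
  have half : ∀ x y : ℂ, 2 * x = 2 * y → x = y := fun x y h => by
    linear_combination (1 / 2 : ℂ) * h
  have qinj : ∀ x y z x' y' z' : ℂ, (2 : ℂ) • qv I' J' K' x y z = (2 : ℂ) • qv I' J' K' x' y' z' →
      x = x' ∧ y = y' ∧ z = z' := by
    intro x y z x' y' z' h1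
    rw [hqs, hqs] at h1
    obtain ⟨h2, h3, h4⟩ := h'.inj h1
    exact ⟨half _ _ h2, half _ _ h3, half _ _ h4⟩
  rw [ha, hb, hc, h'.br] at e1
  rw [ha, hb, hc, h'.br] at e2
  rw [ha, hb, hc, h'.br] at e3
  obtain ⟨p1, p2, p3⟩ := qinj _ _ _ _ _ _ e1
  obtain ⟨q1, q2, q3⟩ := qinj _ _ _ _ _ _ e2
  obtain ⟨r1, r2, r3⟩ := qinj _ _ _ _ _ _ e3
  -- orthogonality
  have oab : a1 * b1 + a2 * b2 + a3 * b3 = 0 := by
    rw [← r1, ← r2, ← r3]
    ring
  have oac : a1 * c1 + a2 * c2 + a3 * c3 = 0 := by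
    rw [← p1, ← p2, ← p3]
    ring
  have obc : b1 * c1 + b2 * c2 + b3 * c3 = 0 := by
    rw [← p1, ← p2, ← p3]
    ring
  have hz : ∀ x y z : ℂ, qv I' J' K' x y z ≠ 0 → ¬ (x = 0 ∧ y = 0 ∧ z = 0) := by
    rintro x y z h1 ⟨rfl, rfl, rfl⟩
    apply h1
    unfold qv
    module
  have fin : ∀ x y z t : ℂ, ¬ (x = 0 ∧ y = 0 ∧ z = 0) → x * (t - 1) = 0 → y * (t - 1) = 0 →
      z * (t - 1) = 0 → t = 1 := by
    intro x y z t h1 h2 h3 h4
    by_contra h5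
    have h6 : t - 1 ≠ 0 := sub_ne_zero.2 h5
    exact h1 ⟨(mul_eq_zero.1 h2).resolve_right h6, (mul_eq_zero.1 h3).resolve_right h6,
      (mul_eq_zero.1 h4).resolve_right h6⟩
  have nb : b1 * b1 + b2 * b2 + b3 * b3 = 1 := by
    refine fin a1 a2 a3 _ (hz _ _ _ (ha ▸ hα0)) ?_ ?_ ?_
    · linear_combination q1 + b1 * oab + b2 * p3 - b3 * p2
    · linear_combination q2 + b2 * oab + b3 * p1 - b1 * p3
    · linear_combination q3 + b3 * oab + b1 * p2 - b2 * p1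
  have nc : c1 * c1 + c2 * c2 + c3 * c3 = 1 := by
    refine fin b1 b2 b3 _ (hz _ _ _ (hb ▸ hβ0)) ?_ ?_ ?_
    · linear_combination r1 + c1 * obc + c2 * q3 - c3 * q2
    · linear_combination r2 + c2 * obc + c3 * q1 - c1 * q3
    · linear_combination r3 + c3 * obc + c1 * q2 - c2 * q1
  have na : a1 * a1 + a2 * a2 + a3 * a3 = 1 := by
    refine fin c1 c2 c3 _ (hz _ _ _ (hc ▸ hγ0)) ?_ ?_ ?_
    · linear_combination p1 + a1 * oac + a2 * r3 - a3 * r2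
    · linear_combination p2 + a2 * oac + a3 * r1 - a1 * r3
    · linear_combination p3 + a3 * oac + a1 * r2 - a2 * r1
  have sq : ∀ x y z : ℂ, x * x + y * y + z * z = 1 →
      qv I' J' K' x y z * qv I' J' K' x y z = -1 := by
    intro x y z h1
    rw [h'.mul, h1]
    unfold qv
    module
  have pr : ∀ x y z x' y' z' u v w : ℂ, x * x' + y * y' + z * z' = 0 →
      y * z' - z * y' = u → z * x' - x * z' = v → x * y' - y * x' = w →
      qv I' J' K' x y z * qv I' J' K' x' y' z' = qv I' J' K' u v w ∧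
      qv I' J' K' x' y' z' * qv I' J' K' x y z = -qv I' J' K' u v w := by
    intro x y z x' y' z' u v w h1 h2 h3 h4
    constructor
    · rw [h'.mul, h1, h2, h3, h4, neg_zero, zero_smul, zero_add]
    · rw [h'.mul, ← h2, ← h3, ← h4]
      have : -(x' * x + y' * y + z' * z) = 0 := by linear_combination -h1
      rw [this, zero_smul, zero_add]
      unfold qv
      module
  refine ⟨α, β, γ, ⟨?_, ?_, ?_, ?_, ?_, ?_, ?_, ?_, ?_⟩, ?_⟩
  · rw [ha]; exact sq _ _ _ na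
  · rw [hb]; exact sq _ _ _ nb
  · rw [hc]; exact sq _ _ _ nc
  · rw [ha, hb, hc]; exact (pr _ _ _ _ _ _ _ _ _ oab p1 p2 p3).1
  · rw [ha, hb, hc]; exact (pr _ _ _ _ _ _ _ _ _ obc q1 q2 q3).1
  · rw [ha, hb, hc]
    exact (pr _ _ _ _ _ _ _ _ _ (by linear_combination oac) r1 r2 r3).1
  · rw [ha, hb, hc]; exact (pr _ _ _ _ _ _ _ _ _ oab p1 p2 p3).2
  · rw [ha, hb, hc]; exact (pr _ _ _ _ _ _ _ _ _ obc q1 q2 q3).2
  · rw [ha, hb, hc]
    exact (pr _ _ _ _ _ _ _ _ _ (by linear_combination oac) r1 r2 r3).2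
  · intro x y hxy
    have h1 : x ∈ SQ I J K := by
      rw [← fst]
      exact ⟨(x, y), hxy, rfl⟩
    obtain ⟨a, b, c, rfl⟩ := mem_SQ.1 h1
    refine ⟨a, b, c, rfl, ?_⟩
    refine uniq _ _ _ hxy ?_
    have h2 := 𝔮.add_mem (𝔮.add_mem (𝔮.smul_mem a hα) (𝔮.smul_mem b hβ)) (𝔮.smul_mem c hγ)
    rw [Prod.smul_mk, Prod.smul_mk, Prod.smul_mk, Prod.mk_add_mk, Prod.mk_add_mk] at h2
    exact h2

end rel

section hom

variable {U U' : Type} [AddCommGroup U] [Module ℂ U] [AddCommGroup U'] [Module ℂ U']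
  {I J K : Module.End ℂ U} {α β γ : Module.End ℂ U'}

/-- the average -/
def avq (I J K : Module.End ℂ U) (α β γ : Module.End ℂ U') (F : U →ₗ[ℂ] U') : U →ₗ[ℂ] U' :=
  F - α ∘ₗ F ∘ₗ I - β ∘ₗ F ∘ₗ J - γ ∘ₗ F ∘ₗ K

theorem avq_apply (F : U →ₗ[ℂ] U') (u : U) :
    avq I J K α β γ F u = F u - α (F (I u)) - β (F (J u)) - γ (F (K u)) := rfl

variable (h : Quat I J K) (h' : Quat α β γ)
include h h'

theorem avq_comm (F : U →ₗ[ℂ] U') :
    α ∘ₗ avq I J K α β γ F = avq I J K α β γ F ∘ₗ I ∧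
    β ∘ₗ avq I J K α β γ F = avq I J K α β γ F ∘ₗ J ∧
    γ ∘ₗ avq I J K α β γ F = avq I J K α β γ F ∘ₗ K := by
  have mul : ∀ {V : Type} [AddCommGroup V] [Module ℂ V] {x y z : Module.End ℂ V}, x * y = z →
      ∀ v, x (y v) = z v := by
    intro V _ _ x y z hxy v
    rw [← hxy]
    rfl
  have n1 : ∀ {V : Type} [AddCommGroup V] [Module ℂ V] (x : Module.End ℂ V) (v : V),
      (-x) v = -(x v) := fun x v => rfl
  have one : ∀ {V : Type} [AddCommGroup V] [Module ℂ V] (v : V),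
      (-1 : Module.End ℂ V) v = -v := fun v => rfl
  refine ⟨?_, ?_, ?_⟩ <;> ext u
  · simp only [LinearMap.comp_apply, avq_apply, map_sub, mul h.ii, mul h.ij, mul h.ik, mul h.ji,
      mul h.jj, mul h.jk, mul h.ki, mul h.kj, mul h.kk, mul h'.ii, mul h'.ij, mul h'.ik, mul h'.ji,
      mul h'.jj, mul h'.jk, mul h'.ki, mul h'.kj, mul h'.kk, n1, one, map_neg, Module.End.one_apply]
    abel
  · simp only [LinearMap.comp_apply, avq_apply, map_sub, mul h.ii, mul h.ij, mul h.ik, mul h.ji,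
      mul h.jj, mul h.jk, mul h.ki, mul h.kj, mul h.kk, mul h'.ii, mul h'.ij, mul h'.ik, mul h'.ji,
      mul h'.jj, mul h'.jk, mul h'.ki, mul h'.kj, mul h'.kk, n1, one, map_neg, Module.End.one_apply]
    abel
  · simp only [LinearMap.comp_apply, avq_apply, map_sub, mul h.ii, mul h.ij, mul h.ik, mul h.ji,
      mul h.jj, mul h.jk, mul h.ki, mul h.kj, mul h.kk, mul h'.ii, mul h'.ij, mul h'.ik, mul h'.ji,
      mul h'.jj, mul h'.jk, mul h'.ki, mul h'.kj, mul h'.kk, n1, one, map_neg, Module.End.one_apply]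
    abel

theorem avq_sum (F : U →ₗ[ℂ] U') : avq I J K α β γ F - avq I J K α β γ (F ∘ₗ I) ∘ₗ I -
    avq I J K α β γ (F ∘ₗ J) ∘ₗ J - avq I J K α β γ (F ∘ₗ K) ∘ₗ K = (4 : ℂ) • F := by
  have mul : ∀ {V : Type} [AddCommGroup V] [Module ℂ V] {x y z : Module.End ℂ V}, x * y = z →
      ∀ v, x (y v) = z v := by
    intro V _ _ x y z hxy v
    rw [← hxy]
    rfl
  have n1 : ∀ {V : Type} [AddCommGroup V] [Module ℂ V] (x : Module.End ℂ V) (v : V),
      (-x) v = -(x v) := fun x v => rfl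
  have one : ∀ {V : Type} [AddCommGroup V] [Module ℂ V] (v : V),
      (-1 : Module.End ℂ V) v = -v := fun v => rfl
  ext u
  simp only [LinearMap.sub_apply, LinearMap.smul_apply, LinearMap.comp_apply, avq_apply, map_sub,
    mul h.ii, mul h.ij, mul h.ik, mul h.ji,
      mul h.jj, mul h.jk, mul h.ki, mul h.kj, mul h.kk, n1, one, map_neg, Module.End.one_apply]
  module

/-- **The intertwining map.** -/
theorem Quat.exists_T [Nontrivial U] [Nontrivial U'] : ∃ T : U →ₗ[ℂ] U', T ≠ 0 ∧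
    α ∘ₗ T = T ∘ₗ I ∧ β ∘ₗ T = T ∘ₗ J ∧ γ ∘ₗ T = T ∘ₗ K := by
  obtain ⟨u, hu⟩ := exists_ne (0 : U)
  obtain ⟨u', hu'⟩ := exists_ne (0 : U')
  obtain ⟨f, hf⟩ := Module.Projective.exists_dual_ne_zero ℂ hu
  by_contra hcon
  push Not at hcon
  have h0 : ∀ F : U →ₗ[ℂ] U', avq I J K α β γ F = 0 := by
    intro F
    by_contra hne
    obtain ⟨h1, h2, h3⟩ := avq_comm h h' F
    exact hcon _ hne h1 h2 h3
  have h1 := avq_sum h h' (f.smulRight u')
  rw [h0, h0, h0, h0, LinearMap.zero_comp, LinearMap.zero_comp, LinearMap.zero_comp, sub_zero,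
    sub_zero, sub_zero] at h1
  have h2 := LinearMap.congr_fun h1 u
  rw [LinearMap.zero_apply, LinearMap.smul_apply, LinearMap.smulRight_apply] at h2
  have h3 := (smul_eq_zero.1 h2.symm).resolve_left (by norm_num)
  exact hu' ((smul_eq_zero.1 h3).resolve_left hf)

omit h' in
/-- **The intertwining map of two linked Lie algebras.** -/
theorem Quat.link [Nontrivial U] [Nontrivial U'] {I' J' K' : Module.End ℂ U'}
    (h' : Quat I' J' K') {𝔮 : Submodule ℂ (Module.End ℂ U × Module.End ℂ U')}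
    (br : Br 𝔮) (fst : 𝔮.map (LinearMap.fst ℂ _ _) = SQ I J K)
    (snd : 𝔮.map (LinearMap.snd ℂ _ _) = SQ I' J' K')
    (inj : ∀ Y, ((0, Y) : Module.End ℂ U × Module.End ℂ U') ∈ 𝔮 → Y = 0)
    (inj' : ∀ X, ((X, 0) : Module.End ℂ U × Module.End ℂ U') ∈ 𝔮 → X = 0) :
    ∃ T : U →ₗ[ℂ] U', T ≠ 0 ∧ ∀ x y, (x, y) ∈ 𝔮 → y.comp T = T.comp x := by
  obtain ⟨α, β, γ, hq, hy⟩ := h.exists_units h' br fst snd inj inj'
  obtain ⟨T, hT, h1, h2, h3⟩ := h.exists_T hq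
  refine ⟨T, hT, fun x y hxy => ?_⟩
  obtain ⟨a, b, c, rfl, rfl⟩ := hy x y hxy
  unfold qv
  rw [LinearMap.add_comp, LinearMap.add_comp, LinearMap.smul_comp, LinearMap.smul_comp,
    LinearMap.smul_comp, LinearMap.comp_add, LinearMap.comp_add, LinearMap.comp_smul,
    LinearMap.comp_smul, LinearMap.comp_smul, h1, h2, h3]

end hom

end Pool.Agent.P8H30.SD
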