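import Mathlib
import Pool.Agent.N192.GP.Ribet

set_option autoImplicit false
set_option linter.unusedSectionVars false
set_option linter.unusedVariables false

/-!
# The Lie algebra `so(3)`, given by quaternion units
-/

open Module

noncomputable section

namespace Pool.Agent.P8H30.SD

open Pool.Agent.N192.GP

variable {R : Type} [Ring R] [Algebra ℂ R]

/-- quaternion units -/
structure Quat (I J K : R) : Prop where
  ii : I * I = -1
  jj : J * J = -1
  kk : K * K = -1
  ij : I * J = K
  jk : J * K = I
  ki : K * I = J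
  ji : J * I = -K
  kj : K * J = -I
  ik : I * K = -J

/-- the span -/
def SQ (I J K : R) : Submodule ℂ R := Submodule.span ℂ {I, J, K}

/-- vectors -/
def qv (I J K : R) (x y z : ℂ) : R := x • I + y • J + z • K

theorem mem_SQ {I J K : R} {s : R} : s ∈ SQ I J K ↔ ∃ x y z, s = qv I J K x y z := by
  unfold SQ qv
  rw [Submodule.mem_span_triple]
  constructor
  · rintro ⟨x, y, z, rfl⟩
    exact ⟨x, y, z, rfl⟩
  · rintro ⟨x, y, z, rfl⟩
    exact ⟨x, y, z, rfl⟩

variable {I J K : R} (h : Quat I J K)
include h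

theorem Quat.mul (x y z x' y' z' : ℂ) : qv I J K x y z * qv I J K x' y' z' =
    (-(x * x' + y * y' + z * z')) • (1 : R) +
      qv I J K (y * z' - z * y') (z * x' - x * z') (x * y' - y * x') := by
  unfold qv
  simp only [add_mul, mul_add, smul_mul_assoc, mul_smul_comm, h.ii, h.jj, h.kk, h.ij, h.jk, h.ki,
    h.ji, h.kj, h.ik]
  module

theorem Quat.br (x y z x' y' z' : ℂ) : qv I J K x y z * qv I J K x' y' z' -
    qv I J K x' y' z' * qv I J K x y z = (2 : ℂ) •
      qv I J K (y * z' - z * y') (z * x' - x * z') (x * y' - y * x') := by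
  rw [h.mul, h.mul]
  unfold qv
  module

theorem Quat.indep [Nontrivial R] {a x y z : ℂ} (h0 : a • (1 : R) + qv I J K x y z = 0) :
    a = 0 ∧ x = 0 ∧ y = 0 ∧ z = 0 := by
  have hI0 : I ≠ 0 := by
    rintro rfl
    have := h.ii
    rw [mul_zero] at this
    exact one_ne_zero (neg_eq_zero.1 this.symm)
  have hJ0 : J ≠ 0 := by
    rintro rfl
    have := h.jj
    rw [mul_zero] at this
    exact one_ne_zero (neg_eq_zero.1 this.symm)
  have hK0 : K ≠ 0 := by
    rintro rfl
    have := h.kk
    rw [mul_zero] at this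
    exact one_ne_zero (neg_eq_zero.1 this.symm)
  have e1 : I * (a • (1 : R) + qv I J K x y z) * I =
      -(a • (1 : R)) - x • I + y • J + z • K := by
    unfold qv
    simp only [add_mul, mul_add, smul_mul_assoc, mul_smul_comm, mul_one, h.ii, h.ij, h.ik,
      h.ki, neg_mul, one_mul, h.ji]
    module
  have e2 : J * (a • (1 : R) + qv I J K x y z) * J =
      -(a • (1 : R)) + x • I - y • J + z • K := by
    unfold qv
    simp only [add_mul, mul_add, smul_mul_assoc, mul_smul_comm, mul_one, h.jj, h.ij, h.ji,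
      h.jk, neg_mul, one_mul, h.kj]
    module
  have e3 : K * (a • (1 : R) + qv I J K x y z) * K =
      -(a • (1 : R)) + x • I + y • J - z • K := by
    unfold qv
    simp only [add_mul, mul_add, smul_mul_assoc, mul_smul_comm, mul_one, h.kk, h.kj, h.ki,
      h.ik, neg_mul, one_mul, h.jk]
    module
  rw [h0, mul_zero, zero_mul] at e1 e2 e3
  have h0' : a • (1 : R) + (x • I + y • J + z • K) = 0 := h0
  have f0 : a • (1 : R) = 0 := by
    have : (4 : ℂ) • (a • (1 : R)) = (a • (1 : R) + (x • I + y • J + z • K)) -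
        (-(a • (1 : R)) - x • I + y • J + z • K) - (-(a • (1 : R)) + x • I - y • J + z • K) -
        (-(a • (1 : R)) + x • I + y • J - z • K) := by module
    rw [h0', ← e1, ← e2, ← e3, sub_zero, sub_zero, sub_zero] at this
    exact (smul_eq_zero.1 this).resolve_left (by norm_num)
  have f1 : x • I = 0 := by
    have : (4 : ℂ) • (x • I) = (a • (1 : R) + (x • I + y • J + z • K)) -
        (-(a • (1 : R)) - x • I + y • J + z • K) + (-(a • (1 : R)) + x • I - y • J + z • K) +
        (-(a • (1 : R)) + x • I + y • J - z • K) := by module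
    rw [h0', ← e1, ← e2, ← e3, sub_zero, add_zero, add_zero] at this
    exact (smul_eq_zero.1 this).resolve_left (by norm_num)
  have f2 : y • J = 0 := by
    have : (4 : ℂ) • (y • J) = (a • (1 : R) + (x • I + y • J + z • K)) +
        (-(a • (1 : R)) - x • I + y • J + z • K) - (-(a • (1 : R)) + x • I - y • J + z • K) +
        (-(a • (1 : R)) + x • I + y • J - z • K) := by module
    rw [h0', ← e1, ← e2, ← e3, add_zero, sub_zero, add_zero] at this
    exact (smul_eq_zero.1 this).resolve_left (by norm_num)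
  have f3 : z • K = 0 := by
    have : (4 : ℂ) • (z • K) = (a • (1 : R) + (x • I + y • J + z • K)) +
        (-(a • (1 : R)) - x • I + y • J + z • K) + (-(a • (1 : R)) + x • I - y • J + z • K) -
        (-(a • (1 : R)) + x • I + y • J - z • K) := by module
    rw [h0', ← e1, ← e2, ← e3, add_zero, add_zero, sub_zero] at this
    exact (smul_eq_zero.1 this).resolve_left (by norm_num)
  exact ⟨(smul_eq_zero.1 f0).resolve_right one_ne_zero, (smul_eq_zero.1 f1).resolve_right hI0,
    (smul_eq_zero.1 f2).resolve_right hJ0, (smul_eq_zero.1 f3).resolve_right hK0⟩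

theorem Quat.inj [Nontrivial R] {x y z x' y' z' : ℂ}
    (h0 : qv I J K x y z = qv I J K x' y' z') : x = x' ∧ y = y' ∧ z = z' := by
  have h1 : (0 : ℂ) • (1 : R) + qv I J K (x - x') (y - y') (z - z') = 0 := by
    have : (0 : ℂ) • (1 : R) + qv I J K (x - x') (y - y') (z - z') =
        qv I J K x y z - qv I J K x' y' z' := by
      unfold qv
      module
    rw [this, h0, sub_self]
  obtain ⟨-, h2, h3, h4⟩ := h.indep h1
  exact ⟨sub_eq_zero.1 h2, sub_eq_zero.1 h3, sub_eq_zero.1 h4⟩

/-- the operators for which `n` is an eigenvector on the right -/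
def evS (n : R) : Subalgebra ℂ R where
  carrier := {y | ∃ c : ℂ, y * n = c • n}
  mul_mem' := by
    rintro a b ⟨c, hc⟩ ⟨d, hd⟩
    exact ⟨d * c, by rw [mul_assoc, hd, mul_smul_comm, hc, smul_smul]⟩
  add_mem' := by
    rintro a b ⟨c, hc⟩ ⟨d, hd⟩
    exact ⟨c + d, by rw [add_mul, hc, hd, add_smul]⟩
  algebraMap_mem' c := ⟨c, by rw [Algebra.algebraMap_eq_smul_one, smul_mul_assoc, one_mul]⟩

omit h in
/-- if all elements commute, so do the elements of the algebra -/
theorem comm_adjoin {𝔥 : Submodule ℂ R} (hc : ∀ x ∈ 𝔥, ∀ y ∈ 𝔥, x * y = y * x) :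
    ∀ x ∈ Algebra.adjoin ℂ (𝔥 : Set R), ∀ y ∈ Algebra.adjoin ℂ (𝔥 : Set R), x * y = y * x := by
  have h1 : ∀ y ∈ 𝔥, ∀ x ∈ Algebra.adjoin ℂ (𝔥 : Set R), x * y = y * x := by
    intro y hy x hx
    induction hx using Algebra.adjoin_induction with
    | mem x hx => exact hc x hx y hy
    | algebraMap c => exact Algebra.commutes c y
    | add a b _ _ ha hb => rw [add_mul, mul_add, ha, hb]
    | mul a b _ _ ha hb => rw [mul_assoc, hb, ← mul_assoc, ha, mul_assoc]
  intro x hx y hy
  induction hy using Algebra.adjoin_induction with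
  | mem y hy => exact h1 y hy x hx
  | algebraMap c => exact (Algebra.commutes c x).symm
  | add a b _ _ ha hb => rw [add_mul, mul_add, ha, hb]
  | mul a b _ _ ha hb => rw [← mul_assoc, ha, mul_assoc, hb, ← mul_assoc]

/-- **The Lie algebra is rigid.** -/
theorem Quat.rigid [Nontrivial R] (𝔥 : Submodule ℂ R) (hle : 𝔥 ≤ SQ I J K) (hbr : Br 𝔥)
    (hg : ∀ z ∈ SQ I J K, z ∈ Algebra.adjoin ℂ (𝔥 : Set R)) : SQ I J K ≤ 𝔥 := by
  have hI : I ∈ SQ I J K := mem_SQ.2 ⟨1, 0, 0, by unfold qv; module⟩
  have hJ : J ∈ SQ I J K := mem_SQ.2 ⟨0, 1, 0, by unfold qv; module⟩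
  have hK : K ∈ SQ I J K := mem_SQ.2 ⟨0, 0, 1, by unfold qv; module⟩
  by_contra hcon
  obtain ⟨s, hs, hs𝔥⟩ := SetLike.not_le_iff_exists.1 hcon
  obtain ⟨f, hf1, hf2⟩ := Submodule.exists_le_ker_of_notMem hs𝔥
  obtain ⟨a, ha⟩ : ∃ a, a = f I := ⟨_, rfl⟩
  obtain ⟨b, hb⟩ : ∃ b, b = f J := ⟨_, rfl⟩
  obtain ⟨c, hc⟩ : ∃ c, c = f K := ⟨_, rfl⟩
  have hfv : ∀ x y z, f (qv I J K x y z) = a * x + b * y + c * z := by
    intro x y z
    unfold qv
    rw [map_add, map_add, map_smul, map_smul, map_smul, smul_eq_mul, smul_eq_mul, smul_eq_mul,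
      ha, hb, hc]
    ring
  have hn : ¬ (a = 0 ∧ b = 0 ∧ c = 0) := by
    rintro ⟨rfl, rfl, rfl⟩
    obtain ⟨x, y, z, rfl⟩ := mem_SQ.1 hs
    rw [hfv] at hf1
    apply hf1
    ring
  have h𝔥 : ∀ v ∈ 𝔥, ∃ x y z, v = qv I J K x y z ∧ a * x + b * y + c * z = 0 := by
    intro v hv
    obtain ⟨x, y, z, rfl⟩ := mem_SQ.1 (hle hv)
    exact ⟨x, y, z, rfl, by rw [← hfv]; exact hf2 hv⟩
  by_cases hcomm : ∀ x ∈ 𝔥, ∀ y ∈ 𝔥, x * y = y * x
  · have h1 := comm_adjoin hcomm I (hg I hI) J (hg J hJ)
    rw [h.ij, h.ji] at h1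
    have h2 := h.indep (a := 0) (x := 0) (y := 0) (z := 2) (by
      unfold qv
      have : (0 : ℂ) • (1 : R) + ((0 : ℂ) • I + (0 : ℂ) • J + (2 : ℂ) • K) = K - -K := by module
      rw [this, ← h1, sub_self])
    exact two_ne_zero h2.2.2.2
  · push Not at hcomm
    obtain ⟨v, hv, v', hv', hne⟩ := hcomm
    obtain ⟨x, y, z, rfl, e1⟩ := h𝔥 v hv
    obtain ⟨x', y', z', rfl, e2⟩ := h𝔥 v' hv'
    have hw := hbr _ hv _ hv'
    rw [h.br] at hw
    have hw' : qv I J K (y * z' - z * y') (z * x' - x * z') (x * y' - y * x') ∈ 𝔥 := by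
      have := 𝔥.smul_mem (2⁻¹ : ℂ) hw
      rwa [smul_smul, inv_mul_cancel₀ (two_ne_zero), one_smul] at this
    obtain ⟨p, hp⟩ : ∃ p, p = y * z' - z * y' := ⟨_, rfl⟩
    obtain ⟨q, hq⟩ : ∃ q, q = z * x' - x * z' := ⟨_, rfl⟩
    obtain ⟨r, hr⟩ : ∃ r, r = x * y' - y * x' := ⟨_, rfl⟩
    rw [← hp, ← hq, ← hr] at hw'
    have hpqr : ¬ (p = 0 ∧ q = 0 ∧ r = 0) := by
      rintro ⟨h1, h2, h3⟩
      apply hne
      rw [← sub_eq_zero, h.br, ← hp, ← hq, ← hr, h1, h2, h3]
      unfold qv
      module
    -- `n` is parallel to `w`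
    have g1 : b * r - c * q = 0 := by
      rw [hq, hr]
      linear_combination x * e2 - x' * e1
    have g2 : c * p - a * r = 0 := by
      rw [hp, hr]
      linear_combination y * e2 - y' * e1
    have g3 : a * q - b * p = 0 := by
      rw [hp, hq]
      linear_combination z * e2 - z' * e1
    have hnw : a * p + b * q + c * r = 0 := by
      rw [← hfv]
      exact hf2 hw'
    -- `n` is isotropic
    have hnn : a * a + b * b + c * c = 0 := by
      by_cases hp0 : p = 0
      · by_cases hq0 : q = 0
        · have hr0 : r ≠ 0 := fun h3 => hpqr ⟨hp0, hq0, h3⟩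
          have a0 : a = 0 := by
            rw [hp0, mul_zero, zero_sub, neg_eq_zero] at g2
            exact (mul_eq_zero.1 g2).resolve_right hr0
          have b0 : b = 0 := by
            rw [hq0, mul_zero, sub_zero] at g1
            exact (mul_eq_zero.1 g1).resolve_right hr0
          have c0 : c = 0 := by
            rw [a0, b0, zero_mul, zero_mul, zero_add, zero_add] at hnw
            exact (mul_eq_zero.1 hnw).resolve_right hr0
          rw [a0, b0, c0]
          ring
        · have k1 : q * (a * a + b * b + c * c) = 0 := by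
            linear_combination b * hnw + a * g3 - c * g1
          exact (mul_eq_zero.1 k1).resolve_left hq0
      · have k1 : p * (a * a + b * b + c * c) = 0 := by
          linear_combination a * hnw - b * g3 + c * g2
        exact (mul_eq_zero.1 k1).resolve_left hp0
    -- all elements of the algebra act on `n` by scalars
    have hev : Algebra.adjoin ℂ (𝔥 : Set R) ≤ evS (qv I J K a b c) := by
      refine Algebra.adjoin_le fun v hv => ?_
      obtain ⟨x, y, z, rfl, e3⟩ := h𝔥 v hv
      have k1 : qv I J K x y z * qv I J K a b c =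
          qv I J K (y * c - z * b) (z * a - x * c) (x * b - y * a) := by
        rw [h.mul]
        have : -(x * a + y * b + z * c) = 0 := by linear_combination -e3
        rw [this, zero_smul, zero_add]
      change ∃ t : ℂ, qv I J K x y z * qv I J K a b c = t • qv I J K a b c
      rw [k1]
      -- the vector `m` with `n × m = 0`
      obtain ⟨m1, hm1⟩ : ∃ m, m = y * c - z * b := ⟨_, rfl⟩
      obtain ⟨m2, hm2⟩ : ∃ m, m = z * a - x * c := ⟨_, rfl⟩
      obtain ⟨m3, hm3⟩ : ∃ m, m = x * b - y * a := ⟨_, rfl⟩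
      have l1 : b * m3 - c * m2 = 0 := by
        rw [hm2, hm3]
        linear_combination x * hnn - a * e3
      have l2 : c * m1 - a * m3 = 0 := by
        rw [hm1, hm3]
        linear_combination y * hnn - b * e3
      have l3 : a * m2 - b * m1 = 0 := by
        rw [hm1, hm2]
        linear_combination z * hnn - c * e3
      rw [← hm1, ← hm2, ← hm3]
      by_cases ha0 : a = 0
      · by_cases hb0 : b = 0
        · have hc0 : c ≠ 0 := fun h3 => hn ⟨ha0, hb0, h3⟩
          exfalso
          rw [ha0, hb0] at hnn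
          apply hc0
          have : c * c = 0 := by linear_combination hnn
          exact mul_self_eq_zero.1 this
        · refine ⟨m2 / b, ?_⟩
          have k2 : m1 = m2 / b * a := by
            field_simp
            linear_combination -l3
          have k3 : m2 = m2 / b * b := by field_simp
          have k4 : m3 = m2 / b * c := by
            field_simp
            linear_combination l1
          unfold qv
          rw [smul_add, smul_add, smul_smul, smul_smul, smul_smul, ← k2, ← k3, ← k4]
      · refine ⟨m1 / a, ?_⟩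
        have k2 : m1 = m1 / a * a := by field_simp
        have k3 : m2 = m1 / a * b := by
          field_simp
          linear_combination l3
        have k4 : m3 = m1 / a * c := by
          field_simp
          linear_combination -l2
        unfold qv
        rw [smul_add, smul_add, smul_smul, smul_smul, smul_smul, ← k2, ← k3, ← k4]
    have hfin : ∀ x y z : ℂ, x * a + y * b + z * c = 0 := by
      intro x y z
      obtain ⟨t, ht⟩ := hev (hg _ (mem_SQ.2 ⟨x, y, z, rfl⟩))
      rw [h.mul] at ht
      have k1 : (-(x * a + y * b + z * c)) • (1 : R) + qv I J K (y * c - z * b - t * a)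
          (z * a - x * c - t * b) (x * b - y * a - t * c) = 0 := by
        have : (-(x * a + y * b + z * c)) • (1 : R) + qv I J K (y * c - z * b - t * a)
          (z * a - x * c - t * b) (x * b - y * a - t * c) =
          ((-(x * a + y * b + z * c)) • (1 : R) +
      qv I J K (y * c - z * b) (z * a - x * c) (x * b - y * a)) - t • qv I J K a b c := by
          unfold qv
          module
        rw [this, ht, sub_self]
      exact neg_eq_zero.1 (h.indep k1).1
    refine hn ⟨?_, ?_, ?_⟩
    · have := hfin 1 0 0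
      linear_combination this
    · have := hfin 0 1 0
      linear_combination this
    · have := hfin 0 0 1
      linear_combination this

end Pool.Agent.P8H30.SD
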