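import Pool.Agent.P8H30.SD.Comb
import Pool.Agent.P8H30.SD.QLink
import Pool.Agent.N113.BT.Spin
import Pool.Agent.N192.GP.InterQ
import Pool.Agent.N192.GP.Cod

set_option autoImplicit false
set_option linter.unusedSectionVars false
set_option linter.unusedVariables false

/-!
# Simple parts
-/

open Module Function TensorProduct Matrix

noncomputable section

namespace Pool.Agent.P8H30.SD

open Pool.Agent.Y102 Pool.Agent.W516.DR Pool.Agent.H204R3.GP Pool.Agent.W516.KC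
  Pool.Agent.H204R3.SP Pool.Agent.TH119.MX Pool.Agent.R917 Pool.Agent.N208.AM Pool.Agent.N113.BT
  Pool.Agent.N192.GP

section gen

variable {R R' : Type} [Ring R] [Algebra ℂ R] [Ring R'] [Algebra ℂ R']

/-- every ideal is zero or everything -/
def Simp (S : Submodule ℂ R) : Prop := ∀ J, Idl J S → J = ⊥ ∨ J = S

/-- perfect -/
def Perf (S : Submodule ℂ R) : Prop := S ≤ brk S S

theorem Simp.map {S : Submodule ℂ R} (hs : Simp S) (ι : R →ₗ[ℂ] R') (hinj : Injective ι)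
    (hmul : ∀ x y, ι (x * y) = ι x * ι y) : Simp (S.map ι) := by
  intro J hJ
  have h1 : Idl (J.comap ι) S := by
    refine ⟨fun x hx => ?_, fun x hx y hy => ?_⟩
    · obtain ⟨z, hz, h⟩ := hJ.1 hx
      rw [← hinj h]
      exact hz
    · change ι (x * y - y * x) ∈ J
      rw [map_sub, hmul, hmul]
      exact hJ.2 _ ⟨x, hx, rfl⟩ _ hy
  have h2 : J = (J.comap ι).map ι := by
    refine le_antisymm (fun x hx => ?_) (Submodule.map_comap_le _ _)
    obtain ⟨z, hz, rfl⟩ := hJ.1 hx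
    exact ⟨z, hx, rfl⟩
  rcases hs _ h1 with h | h
  · left
    rw [h2, h, Submodule.map_bot]
  · right
    rw [h2, h]

theorem Perf.map {S : Submodule ℂ R} (hs : Perf S) (ι : R →ₗ[ℂ] R')
    (hmul : ∀ x y, ι (x * y) = ι x * ι y) : Perf (S.map ι) := by
  refine (Submodule.map_mono hs).trans ?_
  rw [brk, Submodule.map_span_le]
  rintro _ ⟨a, ha, b, hb, rfl⟩
  rw [map_sub, hmul, hmul]
  exact Submodule.subset_span ⟨_, ⟨a, ha, rfl⟩, _, ⟨b, hb, rfl⟩, rfl⟩

/-- The centre of a simple perfect Lie algebra. -/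
theorem Simp.centre {S : Submodule ℂ R} (hs : Simp S) (hp : Perf S) {x : R} (hx : x ∈ S)
    (hc : ∀ y ∈ S, x * y = y * x) : x = 0 := by
  have h1 : Idl (Submodule.span ℂ {x}) S := by
    refine ⟨(Submodule.span_singleton_le_iff_mem _ _).2 hx, fun y hy z hz => ?_⟩
    obtain ⟨c, rfl⟩ := Submodule.mem_span_singleton.1 hz
    rw [mul_smul_comm, smul_mul_assoc, hc y hy, sub_self]
    exact Submodule.zero_mem _
  rcases hs _ h1 with h | h
  · exact Submodule.span_singleton_eq_bot.1 h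
  · have h2 : S ≤ ⊥ := by
      refine hp.trans ?_
      unfold brk
      rw [Submodule.span_le]
      rintro _ ⟨a, ha, b, hb, rfl⟩
      rw [← h] at ha
      obtain ⟨c, rfl⟩ := Submodule.mem_span_singleton.1 ha
      rw [smul_mul_assoc, mul_smul_comm, hc b hb, sub_self]
      exact Submodule.zero_mem _
    exact (Submodule.mem_bot ℂ).1 (h2 hx)

end gen

section AV

variable {g : ℕ} {A : AbVar g}

/-- The image of the derived algebra. -/
def imE (e : EH A) : Submodule ℂ (EH A) :=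
  (cx (Pool.Agent.Y102.der A.NA)).map (LinearMap.mulLeft ℂ e)

variable {e f : EH A} {𝔮 : Submodule ℚ (Module.End ℚ A.H1)}

theorem EPart.der_cx (he : EPart A e) (h : A.Full 𝔮) {x : EH A}
    (hx : x ∈ cx (Pool.Agent.Y102.der A.NA)) : ∃ y ∈ cx (Pool.Agent.Y102.der 𝔮),
      e * x = e * y := by
  induction hx using Submodule.span_induction with
  | mem x hx =>
    obtain ⟨X, hX, rfl⟩ := hx
    exact he.der 𝔮 h X hX
  | zero => exact ⟨0, Submodule.zero_mem _, rfl⟩
  | add a b _ _ ha hb =>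
    obtain ⟨x, hx, h1⟩ := ha
    obtain ⟨y, hy, h3⟩ := hb
    exact ⟨x + y, Submodule.add_mem _ hx hy, by rw [mul_add, mul_add, h1, h3]⟩
  | smul c a _ ha =>
    obtain ⟨x, hx, h1⟩ := ha
    exact ⟨c • x, Submodule.smul_mem _ c hx, by rw [mul_smul_comm, mul_smul_comm, h1]⟩

theorem EPart.map_eq (he : EPart A e) (h : A.Full 𝔮) :
    (cx (Pool.Agent.Y102.der 𝔮)).map (LinearMap.mulLeft ℂ e) = imE e := by
  refine le_antisymm (Submodule.map_mono (cxd_le' h)) ?_
  rintro _ ⟨x, hx, rfl⟩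
  obtain ⟨y, hy, h1⟩ := he.der_cx h hx
  exact ⟨y, hy, h1.symm⟩

/-- Linked: the two kernels agree. -/
def Lkd (e f : EH A) (𝔮 : Submodule ℚ (Module.End ℚ A.H1)) : Prop :=
  ∀ y ∈ cx (Pool.Agent.Y102.der 𝔮), e * y = 0 ↔ f * y = 0

theorem ideal_map (he : EPart A e) (hf : EPart A f) (h : A.Full 𝔮) :
    Idl ((annL f 𝔮).map (LinearMap.mulLeft ℂ e)) (imE e) := by
  have hm : Hm (LinearMap.mulLeft ℂ e) (cx (Pool.Agent.Y102.der 𝔮)) :=
    hm_left (fun x hx => he.comm x (cxd_le h hx)) he.idem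
  refine ⟨?_, ?_⟩
  · rw [← he.map_eq h]
    exact Submodule.map_mono inf_le_left
  · intro x hx y hy
    rw [← he.map_eq h] at hx
    obtain ⟨x, hx, rfl⟩ := hx
    obtain ⟨y, hy, rfl⟩ := hy
    exact ⟨x * y - y * x, (annL_idl hf.comm h).2 x hx y hy, hm x hx y hy.1⟩

/-- **Two simple parts are separated or linked.** -/
theorem dich (he : EPart A e) (hf : EPart A f) (hse : Simp (imE e)) (hsf : Simp (imE f))
    (h : A.Full 𝔮) : imE e ≤ (annL f 𝔮).map (LinearMap.mulLeft ℂ e) ∨ Lkd e f 𝔮 := by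
  rcases hse _ (ideal_map he hf h) with h1 | h1
  · have k1 : ∀ y ∈ cx (Pool.Agent.Y102.der 𝔮), f * y = 0 → e * y = 0 := by
      intro y hy h2
      have h3 : e * y ∈ (annL f 𝔮).map (LinearMap.mulLeft ℂ e) := ⟨y, ⟨hy, h2⟩, rfl⟩
      rw [h1] at h3
      exact (Submodule.mem_bot ℂ).1 h3
    rcases hsf _ (ideal_map hf he h) with h2 | h2
    · right
      intro y hy
      refine ⟨fun h3 => ?_, k1 y hy⟩
      have h4 : f * y ∈ (annL e 𝔮).map (LinearMap.mulLeft ℂ f) := ⟨y, ⟨hy, h3⟩, rfl⟩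
      rw [h2] at h4
      exact (Submodule.mem_bot ℂ).1 h4
    · left
      rw [← he.map_eq h]
      rintro _ ⟨x, hx, rfl⟩
      have h3 : f * x ∈ (annL e 𝔮).map (LinearMap.mulLeft ℂ f) := by
        rw [h2, ← hf.map_eq h]
        exact ⟨x, hx, rfl⟩
      obtain ⟨y, ⟨hy, hy0⟩, hxy⟩ := h3
      have h4 : e * (x - y) = 0 := by
        refine k1 _ (Submodule.sub_mem _ hx hy) ?_
        rw [mul_sub, sub_eq_zero]
        exact hxy.symm
      have h5 : e * x = 0 := by
        rw [mul_sub] at h4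
        have h6 : e * y = 0 := hy0
        rw [h6, sub_zero] at h4
        exact h4
      refine ⟨0, Submodule.zero_mem _, ?_⟩
      rw [map_zero]
      exact h5.symm
  · left
    exact h1.ge

/-- Parts which are never linked are separated. -/
theorem sep2_of (he : EPart A e) (hf : EPart A f) (hse : Simp (imE e)) (hsf : Simp (imE f))
    (hn : ∀ 𝔮, A.Full 𝔮 → ¬ Lkd e f 𝔮) : Sep2 A e f := by
  intro 𝔮 h X hX
  have h1 := (dich he hf hse hsf h).resolve_right (hn 𝔮 h)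
  obtain ⟨y, hy, h2⟩ := h1 ⟨_, bc_mem hX, rfl⟩
  exact ⟨y, hy.1, h2.symm, hy.2⟩

/-- Linked parts have the same dimension. -/
theorem Lkd.finrank_eq (he : EPart A e) (hf : EPart A f) (h : A.Full 𝔮) (hl : Lkd e f 𝔮) :
    finrank ℂ (imE e) = finrank ℂ (imE f) := by
  have h1 := finrank_ker (cx (Pool.Agent.Y102.der 𝔮)) (LinearMap.mulLeft ℂ e)
  have h2 := finrank_ker (cx (Pool.Agent.Y102.der 𝔮)) (LinearMap.mulLeft ℂ f)
  have h3 : cx (Pool.Agent.Y102.der 𝔮) ⊓ LinearMap.ker (LinearMap.mulLeft ℂ e) =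
      cx (Pool.Agent.Y102.der 𝔮) ⊓ LinearMap.ker (LinearMap.mulLeft ℂ f) := by
    ext y
    constructor
    · rintro ⟨hy, h0⟩
      exact ⟨hy, (hl y hy).1 h0⟩
    · rintro ⟨hy, h0⟩
      exact ⟨hy, (hl y hy).2 h0⟩
  rw [he.map_eq h, h3] at h1
  rw [hf.map_eq h] at h2
  exact Nat.add_left_cancel (h1.trans h2.symm)

theorem RigPart.epart {S : Submodule ℂ (EH A)} (hr : RigPart A e S) : EPart A e :=
  ⟨hr.comm, hr.idem, fun 𝔮 h X hX => hr.der h hX⟩

end AV

end Pool.Agent.P8H30.SD
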